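import Mathlib

/-!
Algebraic elements of rational algebras: inverses and idempotents are polynomials.
-/

open Polynomial

namespace Pool.Agent.P.MP_638e8a_ag.K

variable {E S : Type*} [Ring E] [Algebra ℚ E] [Ring S]

/-- If the image of an algebraic element is injective on the left, its inverse is a polynomial. -/
theorem exists_inv (ρ : E →+* S) {g : E} (hg : IsAlgebraic ℚ g) (hu : IsUnit (ρ g)) :
    ∃ P : ℚ[X], ρ (aeval g P) * ρ g = 1 := by
  obtain ⟨P, hP, h0⟩ := hg
  obtain ⟨Q, hQ, hQ'⟩ := exists_eq_pow_rootMultiplicity_mul_and_not_dvd P hP 0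
  rw [map_zero, sub_zero] at hQ hQ'
  have hc : Q.coeff 0 ≠ 0 := fun h => hQ' (X_dvd_iff.2 h)
  have h1 : ρ (aeval g Q) = 0 := by
    have h2 := congrArg ρ h0
    rw [hQ, map_mul, map_pow, aeval_X, map_mul, map_pow, map_zero] at h2
    exact ((hu.pow _).mul_right_eq_zero).1 h2
  refine ⟨-(C (Q.coeff 0)⁻¹ * Q.divX), ?_⟩
  have h3 : C (Q.coeff 0)⁻¹ * Q = 1 + C (Q.coeff 0)⁻¹ * Q.divX * X := by
    conv_lhs => rw [← divX_mul_X_add Q]
    rw [coeff_add, coeff_C_zero, mul_coeff_zero, coeff_X_zero, mul_zero, zero_add, mul_add,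
      ← C_mul, inv_mul_cancel₀ hc, C_1, add_comm, mul_assoc]
  have h4 := congrArg (fun p => ρ (aeval g p)) h3
  simp only [map_mul, h1, mul_zero, map_add, map_one, aeval_X] at h4
  simp only [map_neg, map_mul, neg_mul]
  exact (neg_eq_of_add_eq_zero_left h4.symm)

theorem aeval_mul_eigen (ρ : E →+* S) (g : E) (e : S) (c : ℚ)
    (h : ρ (g - algebraMap ℚ E c) * e = 0) (P : ℚ[X]) :
    ρ (aeval g P) * e = ρ (algebraMap ℚ E (P.eval c)) * e := by
  obtain ⟨Q, hQ⟩ := X_sub_C_dvd_sub_C_eval (a := c) (p := P)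
  have h1 := congrArg (fun p => ρ (aeval g p) * e) (hQ.trans (mul_comm _ _))
  simp only [map_sub, map_mul, aeval_C, aeval_X, sub_mul] at h1 h
  rw [mul_assoc, sub_mul, h, mul_zero] at h1
  exact sub_eq_zero.1 h1

/-- The spectral idempotents of the image of an algebraic element lift to polynomials. -/
theorem exists_idem {ι : Type*} [Fintype ι] [DecidableEq ι] (i₀ : ι) (ρ : E →+* S) {g : E}
    (hg : IsAlgebraic ℚ g) (e : ι → S) (he : CompleteOrthogonalIdempotents e) (c : ι → ℚ)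
    (hc : Function.Injective c) (h : ∀ j, ρ (g - algebraMap ℚ E (c j)) * e j = 0) :
    ∃ p : ι → ℚ[X], CompleteOrthogonalIdempotents (fun i => aeval g (p i)) ∧
      ∀ i, ρ (aeval g (p i)) = e i := by
  obtain ⟨P₀, hP₀, h0⟩ := hg
  set P : ℚ[X] := P₀ * ∏ j, (X - C (c j)) with hPd
  have hP : P ≠ 0 := mul_ne_zero hP₀ (Finset.prod_ne_zero_iff.2 fun j _ => X_sub_C_ne_zero _)
  have hP0 : aeval g P = 0 := by rw [hPd, map_mul, h0, zero_mul]
  have hm : ∀ j, 0 < P.rootMultiplicity (c j) := fun j => (rootMultiplicity_pos hP).2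
    (dvd_iff_isRoot.1 ((Finset.dvd_prod_of_mem _ (Finset.mem_univ j)).mul_left _))
  choose Q hQ hQ' using fun j => exists_eq_pow_rootMultiplicity_mul_and_not_dvd P hP (c j)
  have hco : ∀ j, IsCoprime ((X - C (c j)) ^ P.rootMultiplicity (c j)) (Q j) := fun j =>
    (((irreducible_X_sub_C (c j)).coprime_iff_not_dvd).2 (hQ' j)).pow_left
  choose A B hAB using hco
  have hdvd : ∀ i j, i ≠ j → (X - C (c i)) ^ P.rootMultiplicity (c i) ∣ Q j := fun i j hij => by
    have h1 : IsCoprime ((X - C (c i)) ^ P.rootMultiplicity (c i))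
        ((X - C (c j)) ^ P.rootMultiplicity (c j)) :=
      (pairwise_coprime_X_sub_C hc hij).pow
    exact h1.dvd_of_dvd_mul_left (by rw [← hQ j]; exact ⟨_, hQ i⟩)
  have hz : ∀ p, P ∣ p → aeval g p = 0 := by
    rintro _ ⟨r, rfl⟩
    rw [map_mul, hP0, zero_mul]
  set q : ι → E := fun i => aeval g (B i * Q i) with hq
  have hq1 : ∀ i, q i * q i = q i := fun i => by
    have h1 : aeval g (B i * Q i * (1 - B i * Q i)) = 0 := hz _ ⟨A i * B i, by
      rw [← hAB i, add_sub_cancel_right]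
      conv_rhs => rw [hQ i]
      ring⟩
    rw [map_mul, map_sub, map_one, mul_sub, mul_one] at h1
    exact (sub_eq_zero.1 h1).symm
  have hq2 : ∀ i j, i ≠ j → q i * q j = 0 := fun i j hij => by
    obtain ⟨r, hr⟩ := hdvd i j hij
    rw [hq, ← map_mul]
    exact hz _ ⟨B i * B j * r, by
      rw [hr]
      conv_rhs => rw [hQ i]
      ring⟩
  have hev : ∀ i j, (B i * Q i).eval (c j) = if i = j then 1 else 0 := fun i j => by
    split_ifs with hij
    · subst hij
      have h1 := congrArg (eval (c i)) (hAB i)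
      rwa [eval_add, eval_mul, eval_pow, eval_sub, eval_X, eval_C, sub_self,
        zero_pow (hm i).ne', mul_zero, zero_add, eval_one] at h1
    · obtain ⟨r, hr⟩ := hdvd j i (Ne.symm hij)
      rw [eval_mul, hr, eval_mul, eval_pow, eval_sub, eval_X, eval_C, sub_self,
        zero_pow (hm j).ne', zero_mul, mul_zero]
  have hρ : ∀ i, ρ (q i) = e i := fun i => by
    rw [← mul_one (ρ (q i)), ← he.complete, Finset.mul_sum,
      Finset.sum_congr rfl fun j _ => aeval_mul_eigen ρ g (e j) (c j) (h j) _,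
      Finset.sum_eq_single i (fun j _ hj => by rw [hev, if_neg hj.symm]; simp) (by simp), hev,
      if_pos rfl]
    simp
  have hs : ∀ j, (1 - ∑ i, q i) * q j = 0 ∧ q j * (1 - ∑ i, q i) = 0 := fun j => by
    constructor
    · rw [sub_mul, one_mul, Finset.sum_mul,
        Finset.sum_eq_single j (fun i _ hij => hq2 i j hij) (by simp), hq1, sub_self]
    · rw [mul_sub, mul_one, Finset.mul_sum,
        Finset.sum_eq_single j (fun i _ hij => hq2 j i hij.symm) (by simp), hq1, sub_self]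
  have hp : ∀ i, aeval g (B i * Q i + if i = i₀ then 1 - ∑ j, B j * Q j else 0) =
      q i + if i = i₀ then 1 - ∑ j, q j else 0 := fun i => by
    rw [map_add]
    split_ifs
    · rw [map_sub, map_one, map_sum]
    · rw [map_zero]
  refine ⟨fun i => B i * Q i + if i = i₀ then 1 - ∑ j, B j * Q j else 0, ?_, fun i => ?_⟩
  · simp only [hp]
    refine CompleteOrthogonalIdempotents.iff_ortho_complete.2 ⟨fun i j hij => ?_, ?_⟩
    · beta_reduce
      by_cases hi : i = i₀
      · have hj : j ≠ i₀ := fun h => hij (hi.trans h.symm)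
        rw [if_pos hi, if_neg hj, add_zero, add_mul, hq2 i j hij, (hs j).1, add_zero]
      · rw [if_neg hi, add_zero, mul_add, hq2 i j hij, zero_add]
        split_ifs
        · exact (hs i).2
        · exact mul_zero _
    · rw [Finset.sum_add_distrib, Finset.sum_ite_eq' Finset.univ i₀, if_pos (Finset.mem_univ _),
        add_sub_cancel]
  · rw [hp, map_add, hρ]
    split_ifs
    · rw [map_sub, map_one, map_sum, Finset.sum_congr rfl fun j _ => hρ j, he.complete, sub_self,
        add_zero]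
    · rw [map_zero, add_zero]

/-- Values of a polynomial at congruent elements are congruent. -/
theorem aeval_sub_mem (I : Submodule ℚ E) (hl : ∀ a, ∀ x ∈ I, a * x ∈ I)
    (hr : ∀ a, ∀ x ∈ I, x * a ∈ I) {x a : E} (h : x - a ∈ I) (P : ℚ[X]) :
    aeval x P - aeval a P ∈ I := by
  have hpow : ∀ n : ℕ, x ^ n - a ^ n ∈ I := fun n => by
    induction n with
    | zero => simp
    | succ n ih =>
      have e : x ^ (n + 1) - a ^ (n + 1) = x * (x ^ n - a ^ n) + (x - a) * a ^ n := by
        rw [pow_succ', pow_succ', mul_sub, sub_mul]; abel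
      rw [e]
      exact I.add_mem (hl _ _ ih) (hr _ _ h)
  rw [aeval_eq_sum_range, aeval_eq_sum_range, ← Finset.sum_sub_distrib]
  exact I.sum_mem fun n _ => by rw [← smul_sub]; exact I.smul_mem _ (hpow n)

/-- A sum of an element of `I` and an element of `J`, two ideals of algebraic elements with nil
intersection, is algebraic. -/
theorem isAlgebraic_add (I J : Submodule ℚ E) (hIl : ∀ a, ∀ x ∈ I, a * x ∈ I)
    (hIr : ∀ a, ∀ x ∈ I, x * a ∈ I) (hJl : ∀ a, ∀ x ∈ J, a * x ∈ J)
    (hJr : ∀ a, ∀ x ∈ J, x * a ∈ J) (hn : ∀ x ∈ I, x ∈ J → IsNilpotent x) {a b : E}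
    (ha : a ∈ I) (hb : b ∈ J) (ha' : IsAlgebraic ℚ a) (hb' : IsAlgebraic ℚ b) :
    IsAlgebraic ℚ (a + b) := by
  obtain ⟨P, hP, hPa⟩ := ha'
  obtain ⟨Q, hQ, hQb⟩ := hb'
  have h1 := aeval_sub_mem J hJl hJr (x := a + b) (a := a) (by rwa [add_sub_cancel_left]) P
  have h2 := aeval_sub_mem I hIl hIr (x := a + b) (a := b) (by rwa [add_sub_cancel_right]) Q
  rw [hPa, sub_zero] at h1
  rw [hQb, sub_zero] at h2
  obtain ⟨n, hn'⟩ := hn _ (hIl (aeval (a + b) P) _ h2) (hJr (aeval (a + b) Q) _ h1)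
  exact ⟨(P * Q) ^ n, pow_ne_zero _ (mul_ne_zero hP hQ), by rw [map_pow, map_mul, hn']⟩

end Pool.Agent.P.MP_638e8a_ag.K
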