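import Pool.Agent.P.MP_638e8a_ag.K.Sec

/-!
The invariant holds when the cohomology below the middle degree is motivated by curves.
-/

open CategoryTheory AlgebraicGeometry MonoidalCategory CartesianMonoidalCategory Order

universe u v w

namespace Pool.Agent.P.MP_638e8a_ag.K

open Pool.Agent.P.MP_90138e_ag
open Pool.Agent.P.MP_90138e_ag.WeilCohomology (fstH sndH)
open ChowTheory Sv

variable {k : Type u} [Field k] {S S' V X X' Y Y' Z : SmProj k} {T : ChowTheory k}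

theorem cst_comp (a : T.A (Y.prod V)) (b : T.A (V.prod X)) :
    cst T S _ (T.comp b a) =
      T.comp (pb T V (fstH Y X) (T.tp a) * pb T V (sndH Y X) b) (1 : T.A (S.prod V)) := by
  rw [T.comp_eq (pb T V _ _ * _), ev, map_one, one_mul, ev_mul, ev_pb, ev_pb, T.ev_tp, cst,
    ← pair_eta (sndH S (Y.prod X)), ← ev, T.ev_comp]
  simp only [Category.assoc, pair_eta]

variable [IsAlgClosed k] {K : Type v} [Field K] [CharZero K] {W : WeilCohomology.{u, v, w} k K}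

/-- Operators that factor through a finite-dimensional variety. -/
def Fac (R : CycleMap T W) (P : W.H X →ₗ[K] W.H Y) : Prop :=
  ∃ V, FD T V ∧ ∃ (a : T.A (X.prod V)) (b : T.A (V.prod Y)), R.op (T.comp b a) = P

theorem Fac.of_fd (R : CycleMap T W) (h : FD T X) :
    Fac R (LinearMap.id : W.H X →ₗ[K] W.H X) :=
  ⟨X, h, T.diag X, T.diag X, by rw [T.comp_diag, R.op_diag]⟩

theorem Fac.comp {R : CycleMap T W} {P : W.H X →ₗ[K] W.H Y} (h : Fac R P)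
    {U : W.H Y →ₗ[K] W.H Y'} {U' : W.H X' →ₗ[K] W.H X} (hU : W.AlgOp U) (hU' : W.AlgOp U') :
    Fac R (U ∘ₗ P ∘ₗ U') := by
  obtain ⟨V, hV, a, b, rfl⟩ := h
  obtain ⟨c, rfl⟩ := R.exists_op hU
  obtain ⟨d, rfl⟩ := R.exists_op hU'
  exact ⟨V, hV, T.comp a d, T.comp c b, by simp only [R.op_comp, LinearMap.comp_assoc]⟩

theorem Fac.add {R : CycleMap T W} {P Q : W.H X →ₗ[K] W.H Y} (h : Fac R P) (h' : Fac R Q) :
    Fac R (P + Q) := by
  obtain ⟨V, hV, a, b, rfl⟩ := h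
  obtain ⟨V', hV', a', b', rfl⟩ := h'
  obtain ⟨U, hU, i, r, i', r', e1, e2, e3, e4⟩ := exists_merge R hV hV'
  refine ⟨U, hU, T.comp i a + T.comp i' a', T.comp b r + T.comp b' r', ?_⟩
  rw [← R.op_add]
  simp only [T.add_comp, T.comp_add, T.comp_assoc b, T.comp_assoc b', ← T.comp_assoc r,
    ← T.comp_assoc r', e1, e2, e3, e4, T.diag_comp, T.zero_comp, T.comp_zero, add_zero, zero_add]

theorem fac_of_curveType (R : CycleMap T W) (hX : W.CurveType X) :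
    Fac R (LinearMap.id : W.H X →ₗ[K] W.H X) := by
  induction hX with
  | curve X hX => exact Fac.of_fd R (fd_curve R hX)
  | prod X Y _ _ h h' =>
    obtain ⟨V, hV, a, b, h⟩ := h
    obtain ⟨V', hV', a', b', h'⟩ := h'
    exact ⟨V.prod V', hV.prod hV', T.boxc a a', T.boxc b b', by
      rw [← boxc_comp, R.op_boxc, h, h', box_id_id]⟩
  | image X Y f hf _ h =>
    obtain ⟨z, hz, hd⟩ := SmProj.exists_multisection f
    have h1 := h.comp (((WeilCohomology.AlgOp.push f).comp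
      (WeilCohomology.AlgOp.mulLeft (WeilCohomology.IsAlg.cl z))).smul
        (f.left.residueDegree z : ℚ)⁻¹) (WeilCohomology.AlgOp.pull f)
    convert h1 using 1
    refine LinearMap.ext fun x => ?_
    change x = (((f.left.residueDegree z : ℚ)⁻¹ : ℚ) : K) • W.push f (W.cl Y z * W.pull f x)
    have hg : W.cl X X.gen = 1 := W.cl_generic X
    have hK : (f.left.residueDegree z : K) ≠ 0 := Nat.cast_ne_zero.2 hd
    rw [W.push_mul_pull, W.push_cl', hz, hg, smul_mul_assoc, one_mul, smul_smul]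
    simp [hK]
  | summand X n Y A B _ hA hB hs ih =>
    have e : ∑ j, B j ∘ₗ LinearMap.id ∘ₗ A j = LinearMap.id := LinearMap.ext fun x => by
      rw [LinearMap.sum_apply]
      exact hs x Submodule.mem_top
    rw [← e]
    exact Finset.sum_induction _ (Fac R) (fun _ _ => Fac.add)
      ⟨_, fd_pt, 0, 0, by rw [T.comp_zero, R.op_zero]⟩ fun j _ =>
      (ih j).comp (WeilCohomology.AlgOp.of_isCorr (hB j)) (WeilCohomology.AlgOp.of_isCorr (hA j))

theorem bijOn_range {U : W.H X →ₗ[K] W.H Y} {U' : W.H Y →ₗ[K] W.H X} {n : ℕ}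
    (h : U ∘ₗ U' = W.proj Y n) :
    Set.BijOn U' (W.deg Y n) (LinearMap.range (U' ∘ₗ W.proj Y n ∘ₗ U)) ∧
      Set.BijOn U (LinearMap.range (U' ∘ₗ W.proj Y n ∘ₗ U)) (W.deg Y n) ∧
      (U' ∘ₗ W.proj Y n ∘ₗ U) ∘ₗ (U' ∘ₗ W.proj Y n ∘ₗ U) = U' ∘ₗ W.proj Y n ∘ₗ U := by
  have h1 : ∀ y ∈ W.deg Y n, U (U' y) = y := fun y hy =>
    (LinearMap.congr_fun h y).trans (W.proj_of_mem hy)
  have h2 : Set.InvOn U U' (W.deg Y n) (LinearMap.range (U' ∘ₗ W.proj Y n ∘ₗ U)) :=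
    ⟨h1, by rintro _ ⟨x, rfl⟩; exact congrArg U' (h1 _ (W.proj_mem Y n _))⟩
  have h3 : Set.MapsTo U' (W.deg Y n) (LinearMap.range (U' ∘ₗ W.proj Y n ∘ₗ U)) := fun y hy =>
    ⟨U' y, by simp only [LinearMap.comp_apply, h1 y hy, W.proj_of_mem hy]⟩
  have h4 : Set.MapsTo U (LinearMap.range (U' ∘ₗ W.proj Y n ∘ₗ U)) (W.deg Y n) := by
    rintro _ ⟨x, rfl⟩
    exact (h1 _ (W.proj_mem Y n (U x))).symm ▸ W.proj_mem Y n _
  refine ⟨h2.bijOn h3 h4, h2.symm.bijOn h4 h3, LinearMap.ext fun x => ?_⟩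
  simp only [LinearMap.comp_apply, h1 _ (W.proj_mem Y n _), W.proj_of_mem (W.proj_mem Y n _)]

theorem exists_fac_inv (R : CycleMap T W) {i i' : ℕ} (hi : i + i' = 2 * Y.dim) (h : Mot W Y i)
    {l : W.H Y} (hl : W.IsAlg l) (hb : Set.BijOn (fun x => l * x) (W.deg Y i) (W.deg Y i')) :
    ∃ B, Fac R B ∧ (∀ x ∈ W.deg Y i, B (l * x) = x) ∧
      ∀ m, m + i ≠ 2 * Y.dim → ∀ y ∈ W.deg Y m, B y = 0 := by
  have h' := h.mul hl hb
  obtain ⟨X, U, V, hX, hU, hV, e⟩ := factor_proj (n := i) (by omega) h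
    (by rwa [show 2 * Y.dim - i = i' by omega])
  obtain ⟨X', U', V', hX', hU', hV', e'⟩ := factor_proj (n := i') (by omega) h'
    (by rwa [show 2 * Y.dim - i' = i by omega])
  obtain ⟨a1, a2, a3⟩ := bijOn_range e
  obtain ⟨b1, -, b3⟩ := bijOn_range e'
  have hp : W.AlgOp (W.proj Y i') := e' ▸ hU'.comp hV'
  obtain ⟨θ, hθ, hθ'⟩ := exists_inverse_idem hX hX' _ _ (V' ∘ₗ LinearMap.mulLeft K l ∘ₗ U)
    (hV.comp ((e ▸ hU.comp hV).comp hU)) (hV'.comp (hp.comp hU'))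
    (hV'.comp ((WeilCohomology.AlgOp.mulLeft hl).comp hU)) a3 b3 (b1.comp (hb.comp a2))
  refine ⟨_, (fac_of_curveType R hX).comp hU (hθ.comp (hV'.comp hp)), fun x hx => ?_,
    fun m hm y hy => ?_⟩
  · have h1 : U (V x) = x := (LinearMap.congr_fun e x).trans (W.proj_of_mem hx)
    have h2 := congrArg U (hθ' (V x) (a1.mapsTo hx))
    simp only [LinearMap.comp_apply, h1, LinearMap.mulLeft_apply] at h2
    simp only [LinearMap.comp_apply, LinearMap.id_apply, W.proj_of_mem (hb.mapsTo hx), h2]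
  · simp only [LinearMap.comp_apply, W.proj_of_mem_ne hy (show m ≠ i' by omega), map_zero]

/-- Operators that factor through homogeneous members of a sieve. -/
def Hm (R : CycleMap T W) (κ : Sv T Y) : AddSubmonoid (Module.End K (W.H Y)) :=
  AddSubmonoid.closure {P | ∃ (V : SmProj k) (a : T.A (Y.prod V)) (b : T.A (V.prod Y)) (i j : ℕ),
    a ∈ T.CH _ i ∧ b ∈ T.CH _ j ∧ T.tp a ∈ κ.c V ∧ b ∈ κ.c V ∧ P = R.op (T.comp b a)}

theorem Hm.mono {R : CycleMap T W} {κ κ' : Sv T Y} (h : κ.Le κ') : Hm R κ ≤ Hm R κ' :=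
  AddSubmonoid.closure_mono fun _ ⟨V, a, b, i, j, h1, h2, h3, h4, h5⟩ =>
    ⟨V, a, b, i, j, h1, h2, h V _ h3, h V _ h4, h5⟩

theorem Fac.exists_hm {R : CycleMap T W} {P : Module.End K (W.H Y)} (h : Fac R P) :
    ∃ κ : Sv T Y, FinT κ ∧ P ∈ Hm R κ := by
  obtain ⟨V, hV, a, b, rfl⟩ := h
  have hadd : ∀ P Q, (∃ κ : Sv T Y, FinT κ ∧ P ∈ Hm R κ) → (∃ κ : Sv T Y, FinT κ ∧ Q ∈ Hm R κ) →
      ∃ κ : Sv T Y, FinT κ ∧ P + Q ∈ Hm R κ := fun P Q ⟨κ, h1, h2⟩ ⟨κ', h1', h2'⟩ =>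
    ⟨κ.sup κ', h1.sup R h1', add_mem (Hm.mono (le_sup_left _ _) h2) (Hm.mono (le_sup_right _ _) h2')⟩
  induction a using T.hom_ind with
  | h0 => exact ⟨_, finT_prin hV b, by rw [T.comp_zero, R.op_zero]; exact zero_mem _⟩
  | hadd a a' h h' => rw [T.comp_add, R.op_add]; exact hadd _ _ h h'
  | h i a ha =>
    induction b using T.hom_ind with
    | h0 => exact ⟨_, finT_prin hV 0, by rw [T.zero_comp, R.op_zero]; exact zero_mem _⟩
    | hadd b b' h h' => rw [T.add_comp, R.op_add]; exact hadd _ _ h h'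
    | h j b hb =>
      exact ⟨(prin (T.tp a)).sup (prin b), (finT_prin hV _).sup R (finT_prin hV _),
        AddSubmonoid.subset_closure ⟨V, a, b, i, j, ha, hb, le_sup_left _ _ V _ (mem_prin _),
          le_sup_right _ _ V _ (mem_prin _), rfl⟩⟩

theorem good_atom (R : CycleMap T W) {ρ : Sv T Y} (h1 : FinT ρ) (h2 : IsRg ρ) {h : T.A Y}
    (hh : ∀ S, cst T S Y h ∈ ρ.c S) (hh1 : h ∈ T.CH Y 1)
    (hL : HardLefschetz (W.deg Y) Y.dim (R.γ Y h)) (hM : ∀ i < Y.dim, Mot W Y i) :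
    Good R Y ρ := by
  choose B hB hB' using fun i : Fin Y.dim => exists_fac_inv R (i' := 2 * Y.dim - i) (by omega)
    (hM i i.2) ((R.isAlg_γ h).pow _) (hL i i.2.le)
  choose κ hκ hκ' using fun i => (hB i).exists_hm
  obtain ⟨κ₀, h3, h4⟩ := exists_finT_ge R κ hκ
  let κ₁ : Sv T Y := bil (𝟙 _) (𝟙 _) ρ κ₀
  have h5 : κ₀.Le κ₁ := fun S ψ hψ => by
    simpa only [map_one, one_mul, pb_id] using mem_bil (𝟙 _) (𝟙 _) (h2.one S) hψ
  have h6 : Md (𝟙 _) ρ κ₁ := md_bil_self h2.md _ _ _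
  let τ : Sv T (Y.prod Y) := bil (fstH Y Y) (sndH Y Y) κ₁ κ₁
  have hm : Md (sndH Y Y) ρ ((dg ρ).sup τ) := (md_bil_self h2.md _ _ _).sup
    (by simpa only [Category.comp_id] using md_bil_right (p := fstH Y Y) (q := sndH Y Y) κ₁ h6)
  have h7 : ∀ P ∈ Hm R κ₁, P ∈ Ops R ((dg ρ).sup τ) := fun P hP => by
    refine (AddSubmonoid.closure_le (S := (Ops R ((dg ρ).sup τ)).toAddSubgroup.toAddSubmonoid)).2
      ?_ hP
    rintro _ ⟨V, a, b, i, j, ha, hb, ha', hb', rfl⟩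
    obtain ⟨n, hn⟩ := T.comp_mem' hb ha
    refine op_mem_Ops R (fun S ψ hψ => le_sup_right _ _ S _ (sup_le
      (υ := τ.comap (T.boxc (T.diag Y) (T.comp b a))) (dg_le _ _ fun S r hr => ?_)
      (bil_le _ fun S c hc d hd => ?_) S ψ hψ)) hn
    · refine md_bil_self h6 _ _ _ S r hr _ ?_
      rw [cst_comp]
      exact τ.nat _ (mem_bil _ _ ha' hb')
    · change act _ _ ∈ τ.c S
      rw [act_fst_mul, act_pb_snd, T.comp_assoc]
      exact mem_bil _ _ hc (κ₁.nat _ hb')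
  have h8 := h1.bil h3 (𝟙 _) (𝟙 _)
  exact ⟨_, ⟨(finT_dg R h1).sup R (h8.bil h8 _ _),
    fun S => le_sup_left _ _ S _ (diag_mem_dg h2 S)⟩, hm,
    lef_of_inv (R.γ_mem hh1) hL (mulLeft_mem_Ops R hm hh hh1) fun i hi =>
      ⟨B ⟨i, hi⟩, h7 _ (Hm.mono h5 (Hm.mono (h4 _) (hκ' _))), hB' ⟨i, hi⟩⟩⟩

end Pool.Agent.P.MP_638e8a_ag.K
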