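import Pool.Agent.P.MP_638e8a_ag.K.Rho
import Pool.Agent.P.MP_638e8a_ag.ChStd

/-!
Comparison of the two presentations of Chow rings and Weil cohomology theories.
-/

open CategoryTheory AlgebraicGeometry MonoidalCategory CartesianMonoidalCategory Order

universe u v w

namespace Pool.Agent.P.MP_638e8a_ag.K

open Pool.Agent.P.MP_90138e_ag
open Pool.Agent.P.MP_90138e_ag.WeilCohomology (fstH sndH)
open Cyc

variable {k : Type u} [Field k] {A : H58.Chow k}

/-- The same variety. -/
abbrev toH (X : SmProj k) : H58.SmProj k := ⟨X.X, X.dim, X.smooth, X.integral, X.projective⟩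

/-- The class of a subvariety. -/
noncomputable def clA (A : H58.Chow k) (X : SmProj k) (z : X.X.left) : A.CH (toH X) :=
  A.cyc (toH X) (Finsupp.single z 1)

theorem lc_clA (X : SmProj k) : Finsupp.linearCombination ℚ (clA A X) = A.cyc (toH X) := by
  ext z
  simp [clA]

theorem chd_eq (X : SmProj k) (i : ℤ) : A.CHd (toH X) i =
    Submodule.span ℚ (clA A X '' {z | ((coheight z).toNat : ℤ) = i}) := by
  rw [Finsupp.span_image_eq_map_linearCombination, lc_clA]
  rfl

theorem clA_mem {X : SmProj k} (z : X.X.left) : clA A X z ∈ A.CHd (toH X) (coheight z).toNat :=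
  chd_eq (A := A) X _ ▸ Submodule.subset_span ⟨z, rfl, rfl⟩

theorem mem_span {X : SmProj k} {i : ℤ} {x : A.CH (toH X)} (hx : x ∈ A.CHd (toH X) i)
    {s : Set X.X.left} (h : ∀ (z : X.X.left) (n : ℕ), coheight z = n → (n : ℤ) = i → z ∈ s) :
    x ∈ Submodule.span ℚ (clA A X '' s) := by
  rw [chd_eq] at hx
  refine Submodule.span_mono (Set.image_mono fun z hz => ?_) hx
  obtain ⟨n, hn⟩ := H58.exists_coheight z
  exact h z n hn (by simpa [hn] using hz)

variable [IsAlgClosed k]

theorem cyc_act (hA : H58.IsStandard A) {X : SmProj k} {α β : Zc X} (h : PrA (𝟙 X.X) α β) :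
    A.cyc (toH X) (Cyc.act (𝟙 X.X) α β) = A.cyc (toH X) α * A.cyc (toH X) β :=
  hA.inter (toH X) α β _ ((isInterCycle_iff α β _).2 ⟨h, rfl⟩)

omit [IsAlgClosed k] in
theorem prA_cy {X Y : SmProj k} {f : X.X ⟶ Y.X} {w : X.X.left} {v : Y.X.left} (h : PrI f w v) :
    PrA f (cy w) (cy v) := fun w' hw v' hv => by
  obtain rfl : w' = w := Finset.mem_singleton.1 (Finsupp.support_single_subset hw)
  obtain rfl : v' = v := Finset.mem_singleton.1 (Finsupp.support_single_subset hv)
  exact h

theorem productAxioms (hA : H58.IsStandard A) :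
    ProductAxioms (A := fun X => A.CH (toH X)) (clA A) where
  cl_surjective X := lc_clA (A := A) X ▸ (A.isRing (toH X)).surjective
  cl_ker X := by rw [lc_clA, (A.isRing (toH X)).ker, H58.rat_eq]
  cl_generic X := (A.isRing (toH X)).generic
  mul_codim X z z' := by
    obtain ⟨a, ha⟩ := H58.exists_coheight z
    obtain ⟨b, hb⟩ := H58.exists_coheight z'
    refine mem_span ((A.isRing (toH X)).mul_deg _ _ _ (clA_mem z) _ (clA_mem z')) fun t n h h' => ?_
    rw [ha, hb, ENat.toNat_natCast, ENat.toNat_natCast] at h'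
    change coheight t = _
    rw [h, ha, hb, show n = a + b by omega, Nat.cast_add]
  mul_divisor X D z hD hz := by
    have h0 : X.dim - dm D = 1 := by
      rw [Cyc.coheight_eq] at hD
      exact_mod_cast hD
    have h1 : PrI (𝟙 X.X) D z := fun x hx hx' => by
      have := dm_lt (show x ≤ z from hx') fun e => hz (e ▸ hx)
      omega
    refine ⟨(Cyc.act (𝟙 X.X) (cy D) (cy z)).mapRange (fun q => q.num.toNat) rfl,
      fun t ht => ?_, ?_⟩
    · obtain ⟨w, hw, v, hv, hx⟩ := mem_support_act (Finsupp.support_mapRange ht)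
      obtain rfl : w = D := Finset.mem_singleton.1 (Finsupp.support_single_subset hw)
      obtain rfl : v = z := Finset.mem_singleton.1 (Finsupp.support_single_subset hv)
      refine ⟨hx.1.1, hx.1.2, ?_⟩
      have e1 := dm_ge_of_maximal hx
      have e2 := h1 t hx.1.1 hx.1.2
      have e3 := dm_le_dim v
      rw [Cyc.coheight_eq, Cyc.coheight_eq, ← Nat.cast_succ, Nat.cast_inj]
      omega
    · refine Eq.trans ?_ (Finsupp.sum_mapRange_index (h := fun t (n : ℕ) => n • clA A X t)
        fun _ => zero_smul _ _).symm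
      rw [clA, clA, ← cyc_act hA (prA_cy h1), ← lc_clA, Finsupp.linearCombination_apply]
      refine Finsupp.sum_congr fun t _ => ?_
      rw [act_apply, Rat.num_intCast, ← Nat.cast_smul_eq_nsmul ℚ, ← Int.cast_natCast,
        Int.toNat_of_nonneg (icm_nonneg _ _ _ _)]

omit [IsAlgClosed k] in
theorem pullAxioms (hA : H58.IsStandard A) : PullAxioms (A := fun X => A.CH (toH X)) (clA A)
    fun {X Y} f y => A.pull (X := toH X) (Y := toH Y) f y where
  pull_id X x := DFunLike.congr_fun (A.map_id (toH X)) x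
  pull_comp {X Y Z} f g x :=
    DFunLike.congr_fun (A.map_comp (X := toH X) (Y := toH Y) (Z := toH Z) f g) x
  pull_codim {X Y} f z := by
    obtain ⟨a, ha⟩ := H58.exists_coheight z
    refine mem_span ((A.isMap (X := toH X) (Y := toH Y) f).pull_deg _ _ (clA_mem z))
      fun t n h h' => ?_
    rw [ha, ENat.toNat_natCast] at h'
    change coheight t = _
    rw [h, ha, show n = a by omega]
  pull_fst X Y z hz := by
    choose s h1 h2 using (isProj_fst X Y).exists_top
    have h3 : s ((fstH X Y).left z) = z :=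
      eq_of_le_of_le (hz _ (h1 _)) (h2 _ _ (h1 _).symm)
    refine (hA.pull (toH X) (toH Y) _ _
      ⟨s, fun z => ⟨h1 z, fun t ht => h2 z t (ht.trans (h1 z).symm)⟩, ?_⟩).symm
    exact (congrArg (Finsupp.single · 1) h3.symm).trans Finsupp.mapDomain_single.symm

omit [IsAlgClosed k] in
theorem pushAxioms : PushAxioms (A := fun X => A.CH (toH X)) (clA A)
    (fun {X Y} f y => A.pull (X := toH X) (Y := toH Y) f y)
    fun {X Y} f y => A.push (X := toH X) (Y := toH Y) f y where
  push_cl {X Y} f z := (A.isMap (X := toH X) (Y := toH Y) f).push_cyc z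
  push_codim {X Y} f z := by
    obtain ⟨a, ha⟩ := H58.exists_coheight z
    refine mem_span ((A.isMap (X := toH X) (Y := toH Y) f).push_deg _ _ (clA_mem z))
      fun t n h h' => ?_
    rw [ha, ENat.toNat_natCast] at h'
    change coheight t + X.dim = _
    rw [h, ha, ← Nat.cast_add, ← Nat.cast_add, Nat.cast_inj]
    change (n : ℤ) = a + (Y.dim - X.dim) at h'
    omega
  projection {X Y} f x y := by
    rw [mul_comm, (A.isMap (X := toH X) (Y := toH Y) f).projection, mul_comm]
  base_change {X X'} f Y x := by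
    refine A.baseChange (X' := toH (X'.prod Y)) (X := toH X') (Y' := toH (X.prod Y)) (Y := toH X)
      (fst X'.X Y.X) (f ▷ Y.X) f (fst X.X Y.X) (IsPullback.flip (IsPullback.of_right ?_
        (congrArg (·.left) (whiskerRight_fst f Y.X)) (isProd_prod X Y).flip)) ?_ x
    · have h := (isProd_prod X' Y).flip
      have e : (sndH X' Y).left = (f ▷ Y.X).left ≫ (sndH X Y).left :=
        (congrArg (·.left) (whiskerRight_snd f Y.X)).symm
      rw [← Over.w f, e] at h
      exact h
    · change X'.dim + Y.dim + X.dim = X'.dim + (X.dim + Y.dim)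
      omega

/-- The Chow theory defined by `A`. -/
noncomputable def toT (hA : H58.IsStandard A) : ChowTheory k where
  A X := A.CH (toH X)
  cl := clA A
  pull {X Y} f := A.pull (X := toH X) (Y := toH Y) f
  push {X Y} f := A.push (X := toH X) (Y := toH Y) f
  productAxioms := productAxioms hA
  pullAxioms := pullAxioms hA
  pushAxioms := pushAxioms

theorem clZ_toT (hA : H58.IsStandard A) (X : SmProj k) (c : Zc X) :
    clZ (toT hA) X c = A.cyc (toH X) c := LinearMap.congr_fun (lc_clA X) c

theorem mem_CH (hA : H58.IsStandard A) {X : SmProj k} {j : ℕ} {x : A.CH (toH X)} :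
    x ∈ (toT hA).CH X j ↔ x ∈ A.CHd (toH X) j := by
  refine ⟨fun h => ?_, fun h => mem_span h fun z n h1 h2 => ?_⟩
  · rw [chd_eq]
    exact Submodule.span_mono (Set.image_mono fun z hz => by
      rw [Set.mem_ofPred_eq, show coheight z = j from hz, ENat.toNat_natCast]) h
  · exact h1.trans (congrArg _ (by omega))

theorem clZ_ext (T : ChowTheory k) {X Y : SmProj k} (β : Zc Y) :
    clZ T _ (extZ (fstH X Y) (sndH X Y) (cy X.gen) β) = T.pull (sndH X Y) (clZ T Y β) := by
  induction β using Finsupp.induction_linear with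
  | zero => simp
  | add a b ha hb => simp only [map_add, ha, hb]
  | single v q =>
    have h := isProd_prod X Y
    have h1 : (Finsupp.single v q : Zc Y) = q • cy v := by simp
    rw [h1, map_smul, map_smul, map_smul, map_smul, extZ_cy, wl_clZ_cy, wl_clZ_cy,
      ← T.pull_cl_of_isProj (isProj_snd X Y) fun t ht =>
        h.le_ext.2 ⟨le_gen _, by rw [ht, h.snd_ext]⟩, h.snd_ext]

theorem isStd_toT (hA : H58.IsStandard A) : IsStd (toT hA) := fun X Y f α β h => by
  obtain ⟨h1, h2⟩ := act_graph (isProd_prod X Y) (pair_fst (𝟙 X.X) f) (pair_snd (𝟙 X.X) f) h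
  have h3 : ∀ {X : SmProj k} {α β : Zc X}, PrA (𝟙 X.X) α β → clZ (toT hA) X (Cyc.act (𝟙 X.X) α β) =
      clZ (toT hA) X α * clZ (toT hA) X β := fun h => by
    rw [clZ_toT, clZ_toT, clZ_toT]
    exact cyc_act hA h
  rw [h2, clZ_pushZ, h3 h1, clZ_pushZ, clZ_ext, ← (toT hA).projection, ← (toT hA).push_comp,
    ← (toT hA).pull_comp, pair_fst, pair_snd, (toT hA).push_id]

theorem cl_ext {T : ChowTheory k} (hT : IsStd T) {X Y : SmProj k} (z : X.X.left) (z' : Y.X.left) :
    T.cl _ (extPt (fstH X Y) (sndH X Y) z z') =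
      T.pull (fstH X Y) (T.cl X z) * T.pull (sndH X Y) (T.cl Y z') := by
  have h := isProd_prod X Y
  obtain ⟨h1, h2⟩ := act_eq_cy (f := sndH X Y) (w := extPt (fstH X Y) (sndH X Y) z Y.gen)
    (u := extPt (fstH X Y) (sndH X Y) z z') (v := z') (IF.ext_kills fun R _ ι => by
      rw [h.prime_ext, h.prime_ext]
      simp only [IF.kills_add, IF.kills_comap, IF.kills_gen, and_true])
    (by rw [h.dm_ext, h.dm_ext, dm_gen]; omega)
  have h3 := hT _ _ _ _ _ (prA_cy h1)
  rw [h2, wl_clZ_cy, wl_clZ_cy, wl_clZ_cy, ← T.pull_cl_of_isProj (isProj_fst X Y)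
    (z := extPt (fstH X Y) (sndH X Y) z Y.gen) fun t ht =>
      h.le_ext.2 ⟨by rw [ht, h.fst_ext], le_gen _⟩, h.fst_ext] at h3
  exact h3

theorem comp_toT (hA : H58.IsStandard A) {X Y Z : SmProj k} (α : (toT hA).A (X.prod Y))
    (β : (toT hA).A (Y.prod Z)) :
    A.comp (X := toH X) (Y := toH Y) (Z := toH Z) α β = (toT hA).comp β α := by
  change (toT hA).push (pair (fstH (X.prod Y) Z ≫ fstH X Y) (sndH (X.prod Y) Z))
    ((toT hA).pull (fstH (X.prod Y) Z) α *
      (toT hA).pull (pair (fstH (X.prod Y) Z ≫ sndH X Y) (sndH (X.prod Y) Z)) β) = _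
  rw [push_iso (pair (pair (fstH _ _ ≫ fstH X Z) (sndH (X.prod Z) Y)) (fstH _ _ ≫ sndH X Z))
    (pair (pair (fstH _ _ ≫ fstH X Y) (sndH (X.prod Y) Z)) (fstH _ _ ≫ sndH X Y))
    (prod_ext (prod_ext (by simp) (by simp)) (by simp))
    (prod_ext (prod_ext (by simp) (by simp)) (by simp)), map_mul, pull_pull, pull_pull]
  simp only [comp_pair, pair_fst_assoc, pair_snd, pair_fst, pair_eta]
  rfl

variable {K : Type v} [Field K] [CharZero K]

/-- The cohomological data defined by `W`. -/
noncomputable def toD (W : H58.Weil.{u, v, w} A K) : CohData.{u, v, w} k K where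
  H X := W.H (toH X)
  deg X := W.deg (toH X)
  pull {X Y} f := W.pull (X := toH X) (Y := toH Y) f
  tr X := W.tr (toH X)
  cl X z := W.cl (toH X) (clA A X z)

omit [IsAlgClosed k] in
theorem cls_toD (W : H58.Weil.{u, v, w} A K) (X : SmProj k) (c : Zc X) :
    cls (K := K) ((toD W).cl X) c = W.cl (toH X) (A.cyc (toH X) c) := by
  rw [← lc_clA, Finsupp.linearCombination_apply, map_finsuppSum]
  exact Finsupp.sum_congr fun t _ => (map_ratCast_smul (W.cl (toH X)) ℚ K _ _).symm

theorem isWeil_toD (hA : H58.IsStandard A) (W : H58.Weil.{u, v, w} A K) : IsWeil (toD W) where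
  isFunctorial := ⟨fun X x => DFunLike.congr_fun (W.map_id (toH X)) x, fun {X Y Z} f g x =>
    DFunLike.congr_fun (W.map_comp (X := toH X) (Y := toH Y) (Z := toH Z) f g) x,
    fun {X Y} f => (W.isMap (X := toH X) (Y := toH Y) f).pull_deg⟩
  isPD X :=
    have h := W.isPoincare (toH X)
    ⟨h.finite, h.deg_eq_bot, h.mul_comm, h.tr_deg, h.tr_inj, h.poincare⟩
  isKunneth X Y := ⟨(W.isKunneth (toH X) (toH Y)).bijective, (W.isKunneth (toH X) (toH Y)).tr_prod⟩
  isCycleMap :=
    have hp : ∀ {X Y : SmProj k} (f : X.X ⟶ Y.X) z, PushesTo ((toD W).pull f) ((toD W).tr X)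
        ((toD W).tr Y) ((toD W).cl X z) (f.left.residueDegree z) ((toD W).cl Y (f.left z)) :=
      fun {X Y} f z (y : W.H (toH Y)) => by
        have h := (W.isMap (X := toH X) (Y := toH Y) f).cl_push (clA A X z) y
        rw [(pushAxioms (A := A)).push_cl f z, map_nsmul, smul_mul_assoc, map_nsmul,
          nsmul_eq_mul] at h
        exact h.symm
    have hg : ∀ X : SmProj k, (toD W).cl X (genericPoint X.X.left) = 1 := fun X =>
      (congrArg (W.cl _) ((productAxioms hA).cl_generic X)).trans (map_one _)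
    { cl_deg := fun X z => (W.isPoincare (toH X)).cl_deg _ _ (clA_mem z)
      cl_generic := hg
      tr_cl := fun X z hz => by
        obtain ⟨s, rfl⟩ := X.exists_point z hz
        have h := hp s (SmProj.pt k).gen 1
        rw [hg, map_one, mul_one, mul_one, X.residueDegree_point, Nat.cast_one, one_mul] at h
        exact h.symm.trans W.tr_pt
      cl_rat := fun X c hc => by
        rw [H58.rat_eq, ← (A.isRing (toH X)).ker] at hc
        rw [cls_toD, hc]
        exact map_zero _
      push_cl := hp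
      cl_prod := fun X Y z z' t ht => by
        obtain rfl := (isProd_prod X Y).ext_eq ht
        exact (congrArg (W.cl (toH (X.prod Y))) (cl_ext (isStd_toT hA) z z')).trans
          ((map_mul _ _ _).trans (congrArg₂ _
            ((W.isMap (X := toH (X.prod Y)) (Y := toH X) _).cl_pull _)
            ((W.isMap (X := toH (X.prod Y)) (Y := toH Y) _).cl_pull _)))
      cl_inter := fun X α β γ h => by
        rw [cls_toD, cls_toD, cls_toD, hA.inter (toH X) α β γ h, map_mul]
        rfl }

/-- The cycle class map of `W`. -/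
noncomputable def toR (hA : H58.IsStandard A) (W : H58.Weil.{u, v, w} A K) :
    CycleMap (toT hA) (isWeil_toD hA W).toWeil where
  γ X := W.cl (toH X)
  γ_cl _ _ := rfl
  γ_pull {X Y} f := (W.isMap (X := toH X) (Y := toH Y) f).cl_pull

theorem hasCK_toH (hA : H58.IsStandard A) (W : H58.Weil.{u, v, w} A K) {X : SmProj k}
    (h : HasCK (toR hA W) X) : W.HasCK (toH X) := by
  obtain ⟨π, h1, h2, h3, h4⟩ := h
  refine ⟨π, fun i => (mem_CH hA).1 (h1 i), fun i j => ?_, h3, fun i => ?_⟩
  · rw [comp_toT hA, h2]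
    by_cases h : i = j
    · subst h
      exact (if_pos rfl).trans (if_pos rfl).symm
    · exact (if_neg (Ne.symm h)).trans (if_neg h).symm
  · obtain ⟨P, h5, h6⟩ := h4 i
    have e : P = (isWeil_toD hA W).toWeil.proj X i :=
      (isWeil_toD hA W).toWeil.hom_ext fun m x hx => by
        rw [h6 m x hx]
        split_ifs with h
        · exact ((isWeil_toD hA W).toWeil.proj_of_mem (h ▸ hx)).symm
        · exact ((isWeil_toD hA W).toWeil.proj_of_mem_ne hx h).symm
    subst e
    exact h5

end Pool.Agent.P.MP_638e8a_ag.K
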