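import Pool.Agent.P.MP_638e8a_ag.CFin
import Pool.Agent.P.MP_638e8a_ag.K.Alg

/-!
Correspondences on finite-dimensional varieties are algebraic over the rationals.
-/

open CategoryTheory AlgebraicGeometry MonoidalCategory CartesianMonoidalCategory Order Polynomial

universe u v w

namespace Pool.Agent.P.MP_638e8a_ag.K

open Pool.Agent.P.MP_90138e_ag
open Pool.Agent.P.MP_90138e_ag.WeilCohomology (fstH sndH)
open ChowTheory ChowTheory.FinA

variable {k : Type u} [Field k] {S X X' Y Y' Z : SmProj k} {T : ChowTheory k} {b : Bool}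

theorem ev_smul (q : ℚ) (x : T.A (X.prod Y)) (a : S.X ⟶ X.X) (c : S.X ⟶ Y.X) :
    T.ev (q • x) a c = q • T.ev x a c := map_smul (T.pull (pair a c)) q x

theorem ev_mul (x y : T.A (X.prod Y)) (a : S.X ⟶ X.X) (c : S.X ⟶ Y.X) :
    T.ev (x * y) a c = T.ev x a c * T.ev y a c := map_mul (T.pull (pair a c)) x y

theorem comp_smul (q : ℚ) (β : T.A (Y.prod Z)) (α : T.A (X.prod Y)) :
    T.comp β (q • α) = q • T.comp β α := by
  simp only [comp_eq, ev_smul, smul_mul_assoc, map_smul]

theorem smul_comp (q : ℚ) (β : T.A (Y.prod Z)) (α : T.A (X.prod Y)) :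
    T.comp (q • β) α = q • T.comp β α := by
  simp only [comp_eq, ev_smul, mul_smul_comm, map_smul]

/-- Composition as a bilinear map. -/
noncomputable def cmp (T : ChowTheory k) (X Y Z : SmProj k) :
    T.A (Y.prod Z) →ₗ[ℚ] T.A (X.prod Y) →ₗ[ℚ] T.A (X.prod Z) :=
  LinearMap.mk₂ ℚ T.comp T.add_comp smul_comp T.comp_add fun q β α => comp_smul q β α

theorem cmp_apply (β : T.A (Y.prod Z)) (α : T.A (X.prod Y)) : cmp T X Y Z β α = T.comp β α := rfl

theorem comp_sum {ι : Type*} (s : Finset ι) (β : T.A (Y.prod Z)) (α : ι → T.A (X.prod Y)) :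
    T.comp β (∑ i ∈ s, α i) = ∑ i ∈ s, T.comp β (α i) := map_sum (cmp T X Y Z β) α s

theorem sum_comp {ι : Type*} (s : Finset ι) (β : ι → T.A (Y.prod Z)) (α : T.A (X.prod Y)) :
    T.comp (∑ i ∈ s, β i) α = ∑ i ∈ s, T.comp (β i) α := map_sum ((cmp T X Y Z).flip α) β s

noncomputable instance endModule (X : SmProj k) : Module ℚ (T.End X) :=
  inferInstanceAs (Module ℚ (T.A (X.prod X)))

noncomputable instance endAlgebra (X : SmProj k) : Algebra ℚ (T.End X) :=
  Algebra.ofModule (fun q x y => smul_comp q x.val y.val) fun q x y => comp_smul q x.val y.val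

theorem val_smul (q : ℚ) (x : T.End X) : (q • x).val = q • x.val := rfl

theorem val_sum {ι : Type*} (s : Finset ι) (x : ι → T.End X) :
    (∑ i ∈ s, x i).val = ∑ i ∈ s, (x i).val := rfl

theorem finRk_smul {x : T.A (X.prod Y)} (h : T.FinRk b x) (q : ℚ) : T.FinRk b (q • x) := by
  have h1 := h.comp_right (q • T.diag X)
  rwa [comp_smul, T.comp_diag] at h1

/-- The ideal of evenly or oddly finite-dimensional correspondences. -/
def finI (T : ChowTheory k) (b : Bool) (X : SmProj k) : Submodule ℚ (T.End X) where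
  carrier := {x | T.FinRk b x.val}
  add_mem' ha hb := FinRk.add ha hb
  zero_mem' := FinRk.zero
  smul_mem' q _ hx := finRk_smul hx q

/-- The coefficient `q` counts when the degree `s` is the top degree `N`. -/
def top (N s : ℕ) (q : ℚ) : ℚ := if s = N then q else 0

theorem top_lt {N s : ℕ} (h : s < N) (q : ℚ) : top N s q = 0 := if_neg h.ne

theorem top_mul (N s : ℕ) (c q : ℚ) : top N s (c * q) = c * top N s q := by
  unfold top
  split_ifs <;> simp

/-- The invariant of the Cayley-Hamilton argument. -/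
def InvA (b : Bool) (x : T.End X) (N n : ℕ) : Prop :=
  ∃ (ι : Type) (_ : Fintype ι) (q : ι → ℚ) (m : ι → Fin n → ℕ),
    ∑ t, top N (∑ i, (m t i + 1)) (q t) ≠ 0 ∧ (∀ t, ∑ i, (m t i + 1) ≤ N) ∧
    ∀ (S : SmProj k) (a c : Fin n → (S.X ⟶ X.X)),
      ∑ t, q t • Dm b (fun i j => T.ev (x ^ (m t i + 1)).val (a i) (c j)) = 0

theorem sum_update {n : ℕ} (m : Fin (n + 2) → ℕ) (i : Fin (n + 1)) :
    ∑ j, (Function.update (fun i => m i.succ) i (m 0 + m i.succ + 1) j + 1) =
      ∑ j, (m j + 1) := by
  rw [Fin.sum_univ_succ (fun i => m i + 1), ← Finset.add_sum_erase _ _ (Finset.mem_univ i),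
    ← Finset.add_sum_erase _ (fun i : Fin (n + 1) => m i.succ + 1) (Finset.mem_univ i)]
  have e : ∑ j ∈ Finset.univ.erase i,
      (Function.update (fun i => m i.succ) i (m 0 + m i.succ + 1) j + 1) =
      ∑ j ∈ Finset.univ.erase i, (m j.succ + 1) :=
    Finset.sum_congr rfl fun j hj => by
      rw [Function.update_of_ne (Finset.ne_of_mem_erase hj)]
  rw [e, Function.update_self]
  ring

theorem invA_step (x : T.End X) {N n : ℕ} (h : InvA b x N (n + 2)) : InvA b x N (n + 1) := by
  obtain ⟨ι, _, q, m, h0, hm, h⟩ := h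
  choose τ hτ using fun j : ℕ => T.pt_eq (T.trc (x ^ (j + 1)).val)
  set ε : ℤ := if b then 1 else -1 with hε
  have hε0 : (ε : ℚ) ≠ 0 := by cases b <;> simp [hε]
  refine ⟨ι ⊕ ι × Fin (n + 1), inferInstance,
    Sum.elim (fun t => q t * τ (m t 0)) fun p => ε * q p.1,
    Sum.elim (fun t i => m t i.succ) fun p =>
      Function.update (fun i => m p.1 i.succ) p.2 (m p.1 0 + m p.1 p.2.succ + 1), ?_, ?_, ?_⟩
  · rw [Fintype.sum_sum_type, Fintype.sum_prod_type]
    simp only [Sum.elim_inl, Sum.elim_inr, sum_update]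
    rw [Finset.sum_eq_zero fun t _ => top_lt (by
      have := hm t
      rw [Fin.sum_univ_succ] at this
      omega) _, zero_add]
    simp only [Finset.sum_const, Finset.card_univ, Fintype.card_fin, nsmul_eq_mul, top_mul,
      ← Finset.mul_sum]
    rw [← mul_assoc]
    exact mul_ne_zero (mul_ne_zero (Nat.cast_ne_zero.2 (Nat.succ_ne_zero n)) hε0) h0
  · rintro (t | ⟨t, i⟩)
    · have := hm t
      rw [Fin.sum_univ_succ] at this
      simp only [Sum.elim_inl]
      omega
    · simp only [Sum.elim_inr, sum_update]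
      exact hm t
  · intro S a c
    have h1 := congrArg (T.int S X) (h (S.prod X)
      (Fin.cons (sndH S X) fun i => fstH S X ≫ a i) (Fin.cons (sndH S X) fun i => fstH S X ≫ c i))
    rw [map_sum, map_zero] at h1
    rw [← h1, Fintype.sum_sum_type, Fintype.sum_prod_type, ← Finset.sum_add_distrib]
    refine Finset.sum_congr rfl fun t _ => ?_
    simp only [Sum.elim_inl, Sum.elim_inr]
    rw [map_smul, contract (fun i => (x ^ (m t i + 1)).val) a c, hτ, AlgHom.commutes, smul_add,
      mul_comm (Dm b _), ← Algebra.smul_def, smul_smul, ← Finset.smul_sum, mul_comm (ε : ℚ),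
      mul_smul (q t) (ε : ℚ), Int.cast_smul_eq_zsmul]
    congr 3
    refine Finset.sum_congr rfl fun i _ => ?_
    congr 1
    funext i' j
    by_cases hii : i' = i
    · subst hii
      rw [Function.update_self, Function.update_self, ← End.val_mul, ← pow_add]
      congr 3
      ring
    · rw [Function.update_of_ne hii, Function.update_of_ne hii]

theorem invA_one (x : T.End X) {N : ℕ} (n : ℕ) (h : InvA b x N (n + 1)) : InvA b x N 1 := by
  induction n with
  | zero => exact h
  | succ n ih => exact ih (invA_step x h)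

/-- The Cayley-Hamilton theorem. -/
theorem finRk_isAlgebraic (x : T.End X) (h : T.FinRk b x.val) : IsAlgebraic ℚ x := by
  obtain ⟨N, h⟩ := h
  cases N with
  | zero =>
    have h1 := h (X.prod X) Fin.elim0 Fin.elim0
    rw [Dm_fin_zero] at h1
    have h2 : x = 0 := by
      change x.val = (0 : T.A (X.prod X))
      rw [← mul_one x.val, h1, mul_zero]
    rw [h2]
    exact isAlgebraic_zero
  | succ N =>
    have h0 : InvA b x (N + 1) (N + 1) := by
      refine ⟨Unit, inferInstance, fun _ => 1, fun _ _ => 0, by simp [top], by simp,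
        fun S a c => ?_⟩
      simp only [zero_add, pow_one, Finset.univ_unique, Finset.sum_singleton, one_smul]
      exact h S a c
    obtain ⟨ι, _, q, m, hq, -, h1⟩ := invA_one x N h0
    have h2 := h1 (X.prod X) (fun _ => fstH X X) fun _ => sndH X X
    simp only [Dm_fin_one, T.ev_fst_snd] at h2
    refine ⟨∑ t, monomial (m t 0 + 1) (q t), fun h3 => hq ?_, ?_⟩
    · have h4 := congrArg (fun p => p.coeff (N + 1)) h3
      simp only [finsetSum_coeff, coeff_monomial, coeff_zero] at h4
      simpa only [Fin.sum_univ_one, top] using h4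
    · rw [map_sum]
      simp only [aeval_monomial, ← Algebra.smul_def]
      exact h2

theorem trc_of_prod (z : T.A (X.prod X)) (m : ℕ)
    (h : ∀ (S : SmProj k) (a c : Fin m → (S.X ⟶ X.X)), ∏ i, T.ev z (a i) (c i) = 0) :
    T.trc z = 0 := by
  induction m with
  | zero =>
    have h1 := h (SmProj.pt k) Fin.elim0 Fin.elim0
    rw [Finset.univ_eq_empty, Finset.prod_empty] at h1
    rw [← mul_one (T.trc z), h1, mul_zero]
  | succ m ih =>
    obtain ⟨q, hq⟩ := T.pt_eq (T.trc z)
    by_cases h0 : q = 0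
    · rw [hq, h0, map_zero]
    refine ih fun S a c => ?_
    have h1 := congrArg (T.int S X) (h (S.prod X)
      (Fin.cons (sndH S X) fun i => fstH S X ≫ a i) (Fin.cons (sndH S X) fun i => fstH S X ≫ c i))
    have e1 : T.ev z (sndH S X) (sndH S X) = T.pull (sndH S X) (T.ev z (𝟙 _) (𝟙 _)) := by
      rw [T.pull_ev, Category.comp_id]
    simp only [Fin.prod_univ_succ, Fin.cons_zero, Fin.cons_succ, ← T.pull_ev (fstH S X)] at h1
    rw [← map_prod, e1, mul_comm, T.int_pull_mul, T.int_pull_snd, map_zero] at h1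
    change _ * T.pull _ (T.trc z) = 0 at h1
    rw [hq, AlgHom.commutes, mul_comm, ← Algebra.smul_def] at h1
    exact (smul_eq_zero_iff_right h0).1 h1

theorem trc_of_both {z : T.A (X.prod X)} (h : T.FinRk true z) (h' : T.FinRk false z) :
    T.trc z = 0 := by
  obtain ⟨N, h⟩ := h
  obtain ⟨N', h'⟩ := h'
  refine trc_of_prod z ((N - 1) * (N' - 1) + 1) fun S a c => ?_
  have h1 := kil_inf (N := N) (N' := N') (α := Fin ((N - 1) * (N' - 1) + 1)) (by simp)
    (f := fun σ => ∏ i, T.ev z (a i) (c (σ i))) (fun s e x y => hk_sum (h S) e a c x y)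
    fun s e x y => hk_sum (h' S) e a c x y
  exact congrFun h1 1

/-- The diagonal is the sum of an even and an odd part. -/
def FD (T : ChowTheory k) (X : SmProj k) : Prop :=
  ∃ e₀ e₁ : T.A (X.prod X), T.FinRk false e₀ ∧ T.FinRk true e₁ ∧ e₀ + e₁ = T.diag X

theorem FD.isAlgebraic (h : FD T X) (x : T.End X) : IsAlgebraic ℚ x := by
  obtain ⟨e₀, e₁, h₀, h₁, he⟩ := h
  have e : x = End.mk e₀ * x + End.mk e₁ * x := by
    rw [← add_mul]
    exact (one_mul x).symm.trans (congrArg (· * x) he.symm)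
  have hl : ∀ b a, ∀ y ∈ finI T b X, a * y ∈ finI T b X := fun b a y hy =>
    FinRk.comp_left hy a.val
  have hr : ∀ b a, ∀ y ∈ finI T b X, y * a ∈ finI T b X := fun b a y hy =>
    FinRk.comp_right hy a.val
  have ha : End.mk e₀ * x ∈ finI T false X := hr _ _ _ h₀
  have hb : End.mk e₁ * x ∈ finI T true X := hr _ _ _ h₁
  rw [e]
  refine isAlgebraic_add (finI T false X) (finI T true X) (hl _) (hr _) (hl _) (hr _)
    (fun y hy hy' => FinRk.isNilpotent y hy fun n => ?_) ha hb (finRk_isAlgebraic _ ha)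
    (finRk_isAlgebraic _ hb)
  rw [pow_succ]
  exact trc_of_both (hl _ _ _ hy') (hl _ _ _ hy)

end Pool.Agent.P.MP_638e8a_ag.K
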