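import Pool.Agent.P.MP_638e8a_ag.K.CH

/-!
Families of cycle classes over a parameter variety, and the rules for computing with them.
-/

open CategoryTheory AlgebraicGeometry MonoidalCategory CartesianMonoidalCategory Order

universe u v w

namespace Pool.Agent.P.MP_638e8a_ag.K

open Pool.Agent.P.MP_90138e_ag
open Pool.Agent.P.MP_90138e_ag.WeilCohomology (fstH sndH)
open ChowTheory

variable {k : Type u} [Field k] {S S' U U' X X' X'' Y Y' Y'' Z Z' : SmProj k} {T : ChowTheory k}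

theorem pair_eta (c : S.X ⟶ (X.prod Y).X) : pair (c ≫ fstH X Y) (c ≫ sndH X Y) = c :=
  prod_ext (pair_fst _ _) (pair_snd _ _)

/-- Pull-back of a family along a morphism of the fibre. -/
noncomputable def pb (T : ChowTheory k) (S : SmProj k) (f : Y'.X ⟶ Y.X) :
    T.A (S.prod Y) →ₐ[ℚ] T.A (S.prod Y') := T.pull (pair (fstH S Y') (sndH S Y' ≫ f))

/-- Pull-back of a family along a morphism of the base. -/
noncomputable def par (T : ChowTheory k) (Y : SmProj k) (s : S'.X ⟶ S.X) :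
    T.A (S.prod Y) →ₐ[ℚ] T.A (S'.prod Y) := T.pull (pair (fstH S' Y ≫ s) (sndH S' Y))

/-- The constant family. -/
noncomputable def cst (T : ChowTheory k) (S Y : SmProj k) : T.A Y →ₐ[ℚ] T.A (S.prod Y) :=
  T.pull (sndH S Y)

/-- The graph of a morphism. -/
noncomputable def gr (T : ChowTheory k) (f : Y.X ⟶ X.X) : T.A (Y.prod X) :=
  T.dl (fstH Y X ≫ f) (sndH Y X)

theorem pb_eq (f : Y'.X ⟶ Y.X) (ψ : T.A (S.prod Y)) :
    pb T S f ψ = T.ev ψ (fstH S Y') (sndH S Y' ≫ f) := rfl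

theorem par_eq (s : S'.X ⟶ S.X) (ψ : T.A (S.prod Y)) :
    par T Y s ψ = T.ev ψ (fstH S' Y ≫ s) (sndH S' Y) := rfl

theorem ev_ev (ψ : T.A (X.prod Y)) (a : (X'.prod Y').X ⟶ X.X) (b : (X'.prod Y').X ⟶ Y.X)
    (s : S.X ⟶ X'.X) (y : S.X ⟶ Y'.X) :
    T.ev (T.ev ψ a b) s y = T.ev ψ (pair s y ≫ a) (pair s y ≫ b) := T.pull_ev _ _ _ _

theorem ev_pull (c : T.A X) (a : (X'.prod Y').X ⟶ X.X) (s : S.X ⟶ X'.X) (y : S.X ⟶ Y'.X) :
    T.ev (T.pull a c) s y = T.pull (pair s y ≫ a) c := (T.pull_comp _ _ _).symm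

theorem ev_pb (f : Y'.X ⟶ Y.X) (ψ : T.A (S.prod Y)) (s : U.X ⟶ S.X) (y : U.X ⟶ Y'.X) :
    T.ev (pb T S f ψ) s y = T.ev ψ s (y ≫ f) := by
  rw [pb_eq, ev_ev, pair_fst, pair_snd_assoc]

theorem ev_par (f : S'.X ⟶ S.X) (ψ : T.A (S.prod Y)) (s : U.X ⟶ S'.X) (y : U.X ⟶ Y.X) :
    T.ev (par T Y f ψ) s y = T.ev ψ (s ≫ f) y := by
  rw [par_eq, ev_ev, pair_snd, pair_fst_assoc]

theorem ev_cst (c : T.A Y) (s : U.X ⟶ S.X) (y : U.X ⟶ Y.X) :
    T.ev (cst T S Y c) s y = T.pull y c := by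
  rw [cst, ev_pull, pair_snd]

theorem ev_dl (a b : (X'.prod Y').X ⟶ X.X) (s : S.X ⟶ X'.X) (y : S.X ⟶ Y'.X) :
    T.ev (T.dl a b) s y = T.dl (pair s y ≫ a) (pair s y ≫ b) := T.pull_dl _ _ _

theorem ev_gr (f : Y.X ⟶ X.X) (y : U.X ⟶ Y.X) (x : U.X ⟶ X.X) :
    T.ev (gr T f) y x = T.dl (y ≫ f) x := by
  rw [gr, ev_dl, pair_snd, pair_fst_assoc]

theorem ev_diag (a b : U.X ⟶ X.X) : T.ev (T.diag X) a b = T.dl a b := rfl

theorem pull_pull (f : X.X ⟶ Y.X) (g : Y.X ⟶ Z.X) (x : T.A Z) :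
    T.pull f (T.pull g x) = T.pull (f ≫ g) x := (T.pull_comp f g x).symm

theorem pb_pb (f : Y'.X ⟶ Y.X) (g : Y''.X ⟶ Y'.X) (ψ : T.A (S.prod Y)) :
    pb T S g (pb T S f ψ) = pb T S (g ≫ f) ψ := by
  rw [pb_eq g, ev_pb, pb_eq, Category.assoc]

theorem pb_id (ψ : T.A (S.prod Y)) : pb T S (𝟙 Y.X) ψ = ψ := by
  rw [pb_eq, Category.comp_id, T.ev_fst_snd]

theorem pb_cst (f : Y'.X ⟶ Y.X) (c : T.A Y) :
    pb T S f (cst T S Y c) = cst T S Y' (T.pull f c) := by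
  rw [pb_eq, ev_cst, cst, pull_pull]

theorem par_cst (s : S'.X ⟶ S.X) (c : T.A Y) : par T Y s (cst T S Y c) = cst T S' Y c := by
  rw [par_eq, ev_cst, cst]

theorem par_pb (s : S'.X ⟶ S.X) (f : Y'.X ⟶ Y.X) (ψ : T.A (S.prod Y)) :
    par T Y' s (pb T S f ψ) = pb T S' f (par T Y s ψ) := by
  rw [par_eq, ev_pb, pb_eq, ev_par]

theorem cst_injective (Y : SmProj k) : Function.Injective (cst T (SmProj.pt k) Y) :=
  fun x y h => by
    have h1 := congrArg (fun z => T.ev z (toPt Y) (𝟙 Y.X)) h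
    simpa only [ev_cst, T.pull_id] using h1

theorem int_dl (a : S.X ⟶ X.X) {w : T.A (S.prod X)} (w' : T.A (S.prod X))
    (h : w = T.dl (fstH S X ≫ a) (sndH S X) * w') : T.int S X w = T.pull (pair (𝟙 S.X) a) w' :=
  h ▸ T.int_dl_mul a w'

theorem dl_ev (a b : S.X ⟶ X.X) (v : T.A (U.prod X)) (s : S.X ⟶ U.X) :
    T.dl a b * T.ev v s a = T.dl a b * T.ev v s b := by
  have h := T.dl_subst a b (T.ev v (fstH S X ≫ s) (sndH S X))
  simpa only [T.pull_ev, pair_fst_assoc, pair_snd, Category.id_comp] using h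

theorem dl_pull (a b : S.X ⟶ X.X) (v : T.A X) :
    T.dl a b * T.pull a v = T.dl a b * T.pull b v := by
  have h := T.dl_subst a b (T.pull (sndH S X) v)
  simpa only [pull_pull, pair_snd] using h

theorem push_iso (e : U.X ⟶ U'.X) (e' : U'.X ⟶ U.X) (h : e ≫ e' = 𝟙 _) (h' : e' ≫ e = 𝟙 _)
    (p : U'.X ⟶ S.X) (w : T.A U') : T.push p w = T.push (e ≫ p) (T.pull e w) := by
  rw [T.push_comp, T.push_eq_pull e e' h h', pull_pull, h', T.pull_id]

theorem int_prod (w : T.A (S.prod (Y.prod Y'))) :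
    T.int S (Y.prod Y') w = T.int S Y (T.int (S.prod Y) Y'
      (T.ev w (fstH _ _ ≫ fstH S Y) (pair (fstH _ _ ≫ sndH S Y) (sndH (S.prod Y) Y')))) := by
  rw [int, push_iso _ _ (assoc_hom_inv S Y Y') (assoc_inv_hom S Y Y'), pair_fst, T.push_comp]
  rfl

theorem int_prod' (w : T.A (S.prod (Y.prod Y'))) :
    T.int S (Y.prod Y') w = T.int S Y' (T.int (S.prod Y') Y
      (T.ev w (fstH _ _ ≫ fstH S Y') (pair (sndH (S.prod Y') Y) (fstH _ _ ≫ sndH S Y')))) := by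
  rw [int, push_iso
    (pair (fstH _ _ ≫ fstH S Y') (pair (sndH (S.prod Y') Y) (fstH _ _ ≫ sndH S Y')))
    (pair (pair (fstH S (Y.prod Y')) (sndH _ _ ≫ sndH Y Y')) (sndH _ _ ≫ fstH Y Y'))
    (prod_ext (prod_ext (by simp) (by simp)) (by simp))
    (prod_ext (by simp) (prod_ext (by simp) (by simp))), pair_fst, T.push_comp]
  rfl

theorem int_mul_int (a : T.A (S.prod Y)) (c : T.A (S.prod Y')) :
    T.int S Y a * T.int S Y' c =
      T.int S (Y.prod Y') (pb T S (fstH Y Y') a * pb T S (sndH Y Y') c) := by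
  rw [int_prod, ev_mul, ev_pb, ev_pb, pair_fst, pair_snd, ← T.pull_ev, T.ev_fst_snd,
    T.int_pull_mul, mul_comm, ← T.int_pull_mul, mul_comm, T.pull_int]
  rfl

theorem comp_gr (s : S'.X ⟶ S.X) (ψ : T.A (S.prod Y)) : T.comp ψ (gr T s) = par T Y s ψ := by
  rw [comp_eq, ev_gr, Category.assoc, T.int_dl_mul, T.pull_ev, pair_snd, pair_fst_assoc,
    Category.id_comp, par_eq]

theorem tp_gr_comp (f : Y'.X ⟶ Y.X) (ψ : T.A (S.prod Y)) :
    T.comp (T.tp (gr T f)) ψ = pb T S f ψ := by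
  rw [comp_eq, T.ev_tp, ev_gr, mul_comm, Category.assoc, T.int_dl_mul, T.pull_ev, pair_snd,
    pair_fst_assoc, Category.id_comp, pb_eq]

theorem pb_comp (f : Y'.X ⟶ Y.X) (ψ : T.A (S.prod Y)) (γ : T.A (S'.prod S)) :
    pb T S' f (T.comp ψ γ) = T.comp (pb T S f ψ) γ := by
  rw [← tp_gr_comp, ← tp_gr_comp, T.comp_assoc]

theorem comp_mul (p : Y''.X ⟶ Y.X) (q : Y''.X ⟶ Y'.X) (φ : T.A (U.prod Y))
    (φ' : T.A (U'.prod Y')) (γ : T.A (S.prod U)) (γ' : T.A (S.prod U')) :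
    pb T S p (T.comp φ γ) * pb T S q (T.comp φ' γ') =
      T.comp (pb T _ p (par T Y (fstH U U') φ) * pb T _ q (par T Y' (sndH U U') φ'))
        (pb T S (fstH U U') γ * pb T S (sndH U U') γ') := by
  rw [pb_eq p, pb_eq q, T.ev_comp, T.ev_comp, int_mul_int, comp_eq]
  simp only [ev_mul, ev_par, map_mul, pb_eq, ev_ev, pair_fst_assoc, pair_snd,
    pair_fst, pair_snd_assoc, Category.assoc]
  congr 1
  ring

theorem boxc_comp (β : T.A (Y.prod Z)) (α : T.A (X.prod Y)) (β' : T.A (Y'.prod Z'))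
    (α' : T.A (X'.prod Y')) :
    T.boxc (T.comp β α) (T.comp β' α') = T.comp (T.boxc β β') (T.boxc α α') := by
  rw [boxc, T.ev_comp, T.ev_comp, int_mul_int, comp_eq]
  simp only [T.ev_boxc, map_mul, pb_eq, ev_ev, pair_fst_assoc, pair_snd, Category.assoc]
  congr 1
  ring

theorem boxc_add_left (x y : T.A (X.prod Y)) (x' : T.A (X'.prod Y')) :
    T.boxc (x + y) x' = T.boxc x x' + T.boxc y x' := by
  simp only [boxc, FinA.ev_add, add_mul]

theorem boxc_add_right (x : T.A (X.prod Y)) (x' y' : T.A (X'.prod Y')) :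
    T.boxc x (x' + y') = T.boxc x x' + T.boxc x y' := by
  simp only [boxc, FinA.ev_add, mul_add]

theorem boxc_smul_right (q : ℚ) (x : T.A (X.prod Y)) (x' : T.A (X'.prod Y')) :
    T.boxc x (q • x') = q • T.boxc x x' := by
  simp only [boxc, ev_smul, mul_smul_comm]

theorem boxc_zero_right (x : T.A (X.prod Y)) : T.boxc x (0 : T.A (X'.prod Y')) = 0 := by
  simp only [boxc, FinA.ev_zero, mul_zero]

/-- The action of a correspondence on the second factor of the fibre of a family. -/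
noncomputable def act (g : T.A (X.prod X')) (ψ : T.A (S.prod (Y.prod X))) :
    T.A (S.prod (Y.prod X')) := T.comp (T.boxc (T.diag Y) g) ψ

theorem ev_act (g : T.A (X.prod X')) (ψ : T.A (S.prod (Y.prod X))) (s : U.X ⟶ S.X)
    (c : U.X ⟶ (Y.prod X').X) :
    T.ev (act g ψ) s c = T.int U X
      (T.ev ψ (fstH U X ≫ s) (pair (fstH U X ≫ c ≫ fstH Y X') (sndH U X)) *
        T.ev g (sndH U X) (fstH U X ≫ c ≫ sndH Y X')) := by
  rw [act, T.ev_comp, int_prod']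
  congr 1
  rw [int_dl (fstH U X ≫ c ≫ fstH Y X')
    (T.ev ψ (fstH _ _ ≫ fstH U X ≫ s) (pair (sndH (U.prod X) Y) (fstH _ _ ≫ sndH U X)) *
      T.ev g (fstH _ _ ≫ sndH U X) (fstH _ _ ≫ fstH U X ≫ c ≫ sndH Y X'))]
  · simp only [map_mul, T.pull_ev, comp_pair, pair_fst_assoc, pair_snd, Category.id_comp]
  · simp only [ev_mul, T.ev_boxc, ev_ev, ev_diag, ev_dl, pair_fst_assoc, pair_snd, pair_fst,
      pair_snd_assoc, Category.assoc]
    rw [T.dl_symm (sndH _ _)]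
    ring

theorem act_diag (ψ : T.A (S.prod (Y.prod X))) : act (T.diag X) ψ = ψ := by
  rw [← T.ev_fst_snd (act _ ψ), ev_act, ev_diag, T.dl_symm, mul_comm, T.int_dl_mul, T.pull_ev]
  simp only [comp_pair, pair_fst_assoc, pair_snd, Category.id_comp, pair_eta, T.ev_fst_snd]

theorem boxc_diag (X Y : SmProj k) : T.boxc (T.diag X) (T.diag Y) = T.diag (X.prod Y) := by
  have h := act_diag (T := T) (S := X.prod Y) (T.diag (X.prod Y))
  rwa [act, T.comp_diag] at h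

theorem dl_prod (a b : S.X ⟶ (X.prod Y).X) :
    T.dl a b = T.dl (a ≫ fstH X Y) (b ≫ fstH X Y) * T.dl (a ≫ sndH X Y) (b ≫ sndH X Y) := by
  rw [dl, ← boxc_diag, T.ev_boxc]
  rfl

theorem act_comp (g : T.A (X'.prod X'')) (g' : T.A (X.prod X')) (ψ : T.A (S.prod (Y.prod X))) :
    act (T.comp g g') ψ = act g (act g' ψ) := by
  rw [act, act, act, ← T.comp_assoc, ← boxc_comp, T.comp_diag]

theorem act_nat (g : T.A (X.prod X')) (ψ : T.A (S.prod (Y.prod X))) (γ : T.A (S'.prod S)) :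
    act g (T.comp ψ γ) = T.comp (act g ψ) γ := (T.comp_assoc _ _ _).symm

theorem add_act (g g' : T.A (X.prod X')) (ψ : T.A (S.prod (Y.prod X))) :
    act (g + g') ψ = act g ψ + act g' ψ := by rw [act, boxc_add_right, T.add_comp]; rfl

theorem smul_act (q : ℚ) (g : T.A (X.prod X')) (ψ : T.A (S.prod (Y.prod X))) :
    act (q • g) ψ = q • act g ψ := by rw [act, boxc_smul_right, smul_comp]; rfl

theorem zero_act (ψ : T.A (S.prod (Y.prod X))) : act (0 : T.A (X.prod X')) ψ = 0 := by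
  rw [act, boxc_zero_right, T.zero_comp]

theorem act_cst_diag (g : T.A (X.prod X')) :
    act g (cst T S _ (T.diag X)) = cst T S _ g := by
  rw [← T.ev_fst_snd (act _ _), ev_act, ev_cst]
  change T.int _ _ (T.dl _ _ * _) = _
  rw [T.int_dl_mul, T.pull_ev]
  simp only [pair_fst_assoc, pair_snd, Category.id_comp]
  rw [ev, pair_eta, cst]

theorem int_push (f : Y.X ⟶ X.X) (c : T.A Y) (b : S.X ⟶ X.X) :
    T.int S Y (T.pull (sndH S Y) c * T.dl (sndH S Y ≫ f) (fstH S Y ≫ b)) =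
      T.pull b (T.push f c) := by
  have h1 : T.dl (sndH X Y ≫ f) (fstH X Y) = T.push (pair f (𝟙 Y.X)) 1 := by
    have h2 := congrArg (T.pull (pair (sndH X Y) (fstH X Y))) (T.dl_graph f)
    rw [T.pull_dl, pair_fst_assoc, pair_snd,
      ← T.push_eq_pull _ _ (swap_swap Y X) (swap_swap X Y), ← T.push_comp] at h2
    rw [h2]
    congr 2
    exact prod_ext (by simp) (by simp)
  have h3 : T.int X Y (T.pull (sndH X Y) c * T.dl (sndH X Y ≫ f) (fstH X Y)) = T.push f c := by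
    rw [h1, ← T.projection', pull_pull, pair_snd, T.pull_id, mul_one, int, ← T.push_comp, pair_fst]
  rw [← h3, T.pull_int, map_mul (T.pull _), T.pull_dl, pull_pull]
  simp only [pair_snd, pair_snd_assoc, pair_fst]

theorem gr_comp_cst (f : Y.X ⟶ X.X) (c : T.A Y) :
    T.comp (gr T f) (cst T S Y c) = cst T S X (T.push f c) := by
  rw [comp_eq, ev_cst, ev_gr, int_push, cst]

theorem gr_comp_mul (f : Y.X ⟶ X.X) (w : T.A (S.prod Y)) (v : T.A (S.prod X)) :
    T.comp (gr T f) (w * pb T S f v) = T.comp (gr T f) w * v := by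
  rw [comp_eq, comp_eq, ev_mul, ev_pb, ev_gr, mul_assoc, mul_comm (T.ev v _ _), dl_ev,
    ← T.pull_ev, T.ev_fst_snd, ← mul_assoc, mul_comm, T.int_pull_mul, mul_comm]

theorem boxc_gr (f : X.X ⟶ X'.X) :
    T.boxc (T.diag Y) (gr T f) = gr T (pair (fstH Y X) (sndH Y X ≫ f)) := by
  rw [boxc, ev_gr, ev_diag, gr, dl_prod]
  simp only [Category.assoc, pair_fst, pair_snd]

theorem act_gr (f : X.X ⟶ X'.X) (ψ : T.A (S.prod (Y.prod X))) :
    act (gr T f) ψ = T.comp (gr T (pair (fstH Y X) (sndH Y X ≫ f))) ψ := by rw [act, boxc_gr]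

theorem act_tp_gr (f : X'.X ⟶ X.X) (ψ : T.A (S.prod (Y.prod X))) :
    act (T.tp (gr T f)) ψ = pb T S (pair (fstH Y X') (sndH Y X' ≫ f)) ψ := by
  rw [← T.ev_fst_snd (act _ _), ev_act, T.ev_tp, ev_gr, mul_comm,
    int_dl (sndH S (Y.prod X') ≫ sndH Y X' ≫ f) _ (by simp only [Category.assoc]; rfl),
    T.pull_ev, pb_eq]
  simp only [comp_pair, pair_fst_assoc, pair_snd, Category.id_comp]

/-- Multiplication by a class, as a correspondence. -/
noncomputable def mo (r : T.A X) : T.A (X.prod X) := T.diag X * T.pull (sndH X X) r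

theorem act_mo (r : T.A X) (ψ : T.A (S.prod (Y.prod X))) :
    act (mo r) ψ = pb T S (sndH Y X) (cst T S X r) * ψ := by
  rw [← T.ev_fst_snd (act _ _), ev_act, mo, ev_mul, ev_diag, ev_pull, pair_snd, T.dl_symm,
    mul_left_comm, T.int_dl_mul, map_mul, T.pull_ev, pull_pull, pb_eq, ev_cst, mul_comm]
  simp only [comp_pair, pair_fst_assoc, pair_snd, Category.id_comp, pair_eta, T.ev_fst_snd]

end Pool.Agent.P.MP_638e8a_ag.K
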