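import Pool.Agent.P.MP_638e8a_ag.H58Defs

/-!
The class of varieties generated by varieties whose cohomology below the middle degree is
motivated by curves, under products and morphisms of Lefschetz type.
-/

open CategoryTheory AlgebraicGeometry

universe u v w

namespace Pool.Agent.P.MP_638e8a_ag.K

open H58 H58.SmProj

variable {k : Type u} [Field k]

/-- Varieties dominated by a product of curves. -/
inductive CurveDom : SmProj k → Prop
  | curve (X : SmProj k) : X.dim ≤ 1 → CurveDom X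
  | prod (X Y : SmProj k) : CurveDom X → CurveDom Y → CurveDom (X.prod Y)
  | image (X Y : SmProj k) (f : Y ⟶ X) : Surjective (sch f) → CurveDom Y → CurveDom X

/-- A variety `X` with a morphism `a : X ⟶ C` and a set `N` of cycle classes. -/
structure Marked (A : Chow k) where
  X : SmProj k
  C : SmProj k
  a : X ⟶ C
  N : Set (A.CH X)

variable {A : Chow k}

/-- The subalgebra of `CH(X)` generated by `N` and `a^* CH(C)`. -/
noncomputable def Marked.ring (M : Marked A) : Subalgebra ℚ (A.CH M.X) :=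
  Algebra.adjoin ℚ (M.N ∪ Set.range (A.pull M.a))

/-- `(X × X', a × a', pr_1^* N ∪ pr_2^* N')`. -/
noncomputable def Marked.prod (M M' : Marked A) : Marked A :=
  ⟨M.X.prod M'.X, M.C.prod M'.C, pair (p1 M.X M'.X ≫ M.a) (p2 M.X M'.X ≫ M'.a),
    A.pull (p1 M.X M'.X) '' M.N ∪ A.pull (p2 M.X M'.X) '' M'.N⟩

variable {K : Type v} [Field K] [CharZero K] (W : Weil.{u, v, w} A K)

/-- Hard Lefschetz holds for a divisor class in the ring of `M`. -/
def Lefschetz (M : Marked A) : Prop :=
  ∃ h ∈ M.ring, h ∈ A.CHd M.X 1 ∧ ∀ i < M.X.dim,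
    Set.BijOn (fun x => W.cl M.X h ^ (M.X.dim - i) * x) (W.deg M.X i) (W.deg M.X (2 * M.X.dim - i))

/-- `H^i(Y)` is motivated by curves: a correspondence maps the image of an algebraic idempotent of
`H(V)`, with `V` dominated by a product of curves, bijectively onto `H^i(Y)`. -/
def Motivated (Y : SmProj k) (i : ℕ) : Prop :=
  ∃ (V : SmProj k) (e : A.CH (V.prod V)) (c : A.CH (V.prod Y)) (P : W.H V →ₗ[K] W.H V)
    (U : W.H V →ₗ[K] W.H Y), CurveDom V ∧ W.Acts e P ∧ W.Acts c U ∧ P ∘ₗ P = P ∧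
    Set.BijOn U (LinearMap.range P) (W.deg Y i)

/-- There are classes `n t` of codimension `e t` in the ring of `M` such that
`(x t) ↦ ∑ n t ∪ f^* (x t)` is a bijection `⨁ H^(i - 2 e t)(Y) → H^i(X)`. -/
def Generates (M : Marked A) {Y : SmProj k} (f : M.X ⟶ Y) (i : ℕ) : Prop :=
  ∃ (m : ℕ) (n : Fin m → A.CH M.X) (e j : Fin m → ℕ),
    (∀ t, n t ∈ M.ring ∧ n t ∈ A.CHd M.X (e t) ∧ j t + 2 * e t = i) ∧
    Set.BijOn (fun x : Fin m → W.H Y => ∑ t, W.cl M.X (n t) * W.pull f (x t))
      {x | ∀ t, x t ∈ W.deg Y (j t)} (W.deg M.X i)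

/-- The smallest class of marked varieties containing the atoms and closed under products and
under morphisms of Lefschetz type. -/
inductive Kleiman : Marked A → Prop
  | atom (M : Marked A) : CurveDom M.C → M.N.Finite → Lefschetz W M →
      (∀ i < M.X.dim, Motivated W M.X i) → Kleiman M
  | prod (M M' : Marked A) : Kleiman M → Kleiman M' → Kleiman (M.prod M')
  | map (M : Marked A) (Z : SmProj k) (f : Z ⟶ M.X) (N : Set (A.CH Z)) : Kleiman M → N.Finite →
      (∀ n ∈ Algebra.adjoin ℚ N, A.push f n ∈ M.ring) → Lefschetz W ⟨Z, M.C, f ≫ M.a, N⟩ →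
      (∀ i < Z.dim, Generates W ⟨Z, M.C, f ≫ M.a, N⟩ f i) → Kleiman ⟨Z, M.C, f ≫ M.a, N⟩

end Pool.Agent.P.MP_638e8a_ag.K
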