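import Pool.Agent.P.MP_638e8a_ag.K.Calc
import Pool.Agent.P.MP_638e8a_ag.GCurve
import Pool.Agent.P.MP_638e8a_ag.ChProj
import Pool.Agent.P.MP_90138e_ag.Image
import Pool.Agent.P.MP_90138e_ag.Sys

/-!
Finite-dimensional varieties: products, retracts, curves, images, and finite sums.
-/

open CategoryTheory AlgebraicGeometry MonoidalCategory CartesianMonoidalCategory Order

universe u v w

namespace Pool.Agent.P.MP_638e8a_ag.K

open Pool.Agent.P.MP_90138e_ag
open Pool.Agent.P.MP_90138e_ag.WeilCohomology (fstH sndH)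
open ChowTheory

variable {k : Type u} [Field k] {S U V V' P X X' Y Y' Z : SmProj k} {T : ChowTheory k}

theorem FD.prod (h : FD T X) (h' : FD T Y) : FD T (X.prod Y) := by
  obtain ⟨a, b, ha, hb, e⟩ := h
  obtain ⟨a', b', ha', hb', e'⟩ := h'
  refine ⟨T.boxc a a' + T.boxc b b', T.boxc a b' + T.boxc b a', (ha.boxc ha').add (hb.boxc hb'),
    (ha.boxc hb').add (hb.boxc ha'), ?_⟩
  rw [← boxc_diag, ← e, ← e', boxc_add_left, boxc_add_right, boxc_add_right]
  abel

theorem FD.retract (h : FD T V) (i : T.A (X.prod V)) (r : T.A (V.prod X))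
    (e : T.comp r i = T.diag X) : FD T X := by
  obtain ⟨a, b, ha, hb, e'⟩ := h
  refine ⟨T.comp r (T.comp a i), T.comp r (T.comp b i), (ha.comp_right i).comp_left r,
    (hb.comp_right i).comp_left r, ?_⟩
  rw [← T.comp_add, ← T.add_comp, e', T.diag_comp, e]

theorem eq_smul_one {x : T.A X} (hx : x ∈ T.CH X 0) : ∃ q : ℚ, x = q • (1 : T.A X) := by
  have h : T.CH X 0 ≤ Submodule.span ℚ {(1 : T.A X)} := by
    refine Submodule.span_le.2 ?_
    rintro _ ⟨z, hz, rfl⟩
    rw [(X.coheight_eq_zero_iff z).1 hz, T.cl_gen]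
    exact Submodule.mem_span_singleton_self _
  obtain ⟨q, hq⟩ := Submodule.mem_span_singleton.1 (h hx)
  exact ⟨q, hq.symm⟩

theorem fd_dim_zero (h : X.dim = 0) : FD T X := by
  obtain ⟨q, hq⟩ := eq_smul_one (h ▸ T.diag_mem X : T.diag X ∈ T.CH (X.prod X) 0)
  refine ⟨T.diag X, 0, ?_, FinRk.zero, add_zero _⟩
  have h1 := finRk_smul (finRk_rank_one (T := T) (X := X) (Y := X) 1 1) q
  rwa [map_one, map_one, mul_one, ← hq] at h1

theorem fd_pt : FD T (SmProj.pt k) := fd_dim_zero rfl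

/-- The inclusion of `V` into `V × P` given by a class on `P`. -/
noncomputable def inc (V : SmProj k) (c : T.A P) : T.A (V.prod (V.prod P)) :=
  T.dl (fstH _ _) (sndH _ _ ≫ fstH V P) * T.pull (sndH _ _ ≫ sndH V P) c

/-- The projection from `V × P` to `V` given by a class on `P`. -/
noncomputable def prj (V : SmProj k) (c : T.A P) : T.A ((V.prod P).prod V) := T.tp (inc V c)

theorem prj_inc (c c' : T.A P) (q : ℚ) (h : T.tr P (c * c') = algebraMap ℚ _ q) :
    T.comp (prj V c') (inc V c) = q • T.diag V := by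
  have h1 := int_mul_int (T := T) (S := V.prod V)
    (T.dl (fstH _ _ ≫ fstH V V) (sndH _ V) * T.dl (fstH _ _ ≫ sndH V V) (sndH _ V))
    (T.pull (sndH _ P) (c * c'))
  rw [T.int_dl_mul, T.pull_dl, T.int_pull_snd, h, AlgHom.commutes, mul_comm, ← Algebra.smul_def,
    pair_fst_assoc, pair_snd, Category.id_comp, T.dl_symm, dl, T.ev_fst_snd] at h1
  rw [h1, comp_eq, prj, T.ev_tp, inc, inc]
  simp only [ev_mul, ev_dl, ev_pull, pb_eq, map_mul, pair_fst, pair_snd_assoc, pair_fst_assoc,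
    pair_snd]
  congr 1
  ring

theorem dual_prod {c c' : T.A X} {d d' : T.A Y} :
    T.tr (X.prod Y) (T.pull (fstH X Y) c * T.pull (sndH X Y) d *
      (T.pull (fstH X Y) c' * T.pull (sndH X Y) d')) = T.tr X (c * c') * T.tr Y (d * d') := by
  rw [mul_mul_mul_comm, ← map_mul, ← map_mul, ← T.tr_int, T.int_pull_mul, T.int_pull_snd, tr,
    T.projection]

variable [IsAlgClosed k] {K : Type v} [Field K] [CharZero K] {W : WeilCohomology.{u, v, w} k K}

omit [IsAlgClosed k] in
theorem FD.image (h : FD T Y) (f : Y.X ⟶ X.X) [Surjective f.left] [IsAlgClosed k] : FD T X := by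
  obtain ⟨z, hz, hd⟩ := SmProj.exists_multisection f
  have hn : (f.left.residueDegree z : ℚ) ≠ 0 := Nat.cast_ne_zero.2 hd
  refine h.retract (cst T X Y (T.cl Y z) * T.tp (gr T f))
    ((f.left.residueDegree z : ℚ)⁻¹ • gr T f) ?_
  rw [← T.comp_diag (T.tp (gr T f)), tp_gr_comp, smul_comp, gr_comp_mul, gr_comp_cst, T.push_cl,
    hz, T.cl_gen, map_nsmul, map_one, ← Nat.cast_smul_eq_nsmul ℚ, smul_mul_assoc, one_mul,
    smul_smul, inv_mul_cancel₀ hn, one_smul]

theorem fd_curve (R : CycleMap T W) (h : X.dim ≤ 1) : FD T X := by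
  by_cases h0 : X.dim = 0
  · exact fd_dim_zero h0
  obtain ⟨s⟩ := X.exists_ptHom
  have h1 := finRk_rank_one (T := T) (Y := X) (T.cl X (s.left (SmProj.pt k).gen)) 1
  have h2 := finRk_rank_one (T := T) (X := X) 1 (T.cl X (s.left (SmProj.pt k).gen))
  rw [map_one, mul_one] at h1
  rw [map_one, one_mul] at h2
  exact ⟨_, _, h1.add h2, finRk_curve R (by omega) s, by abel⟩

/-- There is a finite-dimensional variety with a biorthogonal system of classes indexed by `ι`. -/
def Bi (T : ChowTheory k) (ι : Type) [DecidableEq ι] : Prop :=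
  ∃ P, FD T P ∧ ∃ c c' : ι → T.A P, ∀ s t,
    T.tr P (c s * c' t) = algebraMap ℚ _ (if s = t then 1 else 0)

theorem bi_bool (R : CycleMap T W) : Bi T Bool := by
  obtain ⟨s⟩ := (Cyc.proj k 1).exists_ptHom
  set o := T.cl (Cyc.proj k 1) (s.left (SmProj.pt k).gen) with ho
  have h1 : o ∈ T.CH _ 1 := T.cl_mem (W.coheight_closed _ _ ((Cyc.proj k 1).isClosed_point s))
  have h2 : T.tr _ o = 1 := T.tr_cl_point s
  have h3 : o * o = 0 := T.eq_zero_of_dim_lt W (by decide : 1 < 1 + 1) (T.mul_mem h1 h1)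
  have h4 : T.tr (Cyc.proj k 1) 1 = 0 := T.push_eq_zero _ (by decide : 0 + 0 < 1) (T.one_mem _)
  refine ⟨Cyc.proj k 1, fd_curve R le_rfl, fun b => if b then 1 else o,
    fun b => if b then o else 1, fun s t => ?_⟩
  cases s <;> cases t <;> simp [h2, h3, h4]

omit [IsAlgClosed k] in
theorem Bi.prod {ι κ : Type} [DecidableEq ι] [DecidableEq κ] (h : Bi T ι) (h' : Bi T κ) :
    Bi T (ι × κ) := by
  obtain ⟨P, hP, c, c', h⟩ := h
  obtain ⟨Q, hQ, d, d', h'⟩ := h'
  refine ⟨P.prod Q, hP.prod hQ, fun p => T.pull (fstH P Q) (c p.1) * T.pull (sndH P Q) (d p.2),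
    fun p => T.pull (fstH P Q) (c' p.1) * T.pull (sndH P Q) (d' p.2), fun s t => ?_⟩
  rw [dual_prod, h, h', ← map_mul]
  congr 1
  by_cases h1 : s.1 = t.1 <;> by_cases h2 : s.2 = t.2 <;> simp [h1, h2, Prod.ext_iff]

omit [IsAlgClosed k] in
theorem Bi.of_injective {ι κ : Type} [DecidableEq ι] [DecidableEq κ] (h : Bi T κ) (e : ι → κ)
    (he : Function.Injective e) : Bi T ι := by
  obtain ⟨P, hP, c, c', h⟩ := h
  exact ⟨P, hP, c ∘ e, c' ∘ e, fun s t => by simp only [Function.comp_apply, h, he.eq_iff]⟩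

theorem bi_fin (R : CycleMap T W) (n : ℕ) : Bi T (Fin n) := by
  have key : ∀ n, Bi T (Fin (n + 1)) := fun n => by
    induction n with
    | zero => exact (bi_bool R).of_injective (fun _ => true) fun a b _ => by omega
    | succ n ih =>
      obtain ⟨e⟩ := Function.Embedding.nonempty_of_card_le (α := Fin (n + 2))
        (β := Fin (n + 1) × Bool) (by simp; omega)
      exact (ih.prod (bi_bool R)).of_injective e e.injective
  exact (key n).of_injective Fin.castSucc (Fin.castSucc_injective n)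

theorem exists_copies (R : CycleMap T W) (h : FD T V) (ι : Type) [Fintype ι] [DecidableEq ι] :
    ∃ U, FD T U ∧ ∃ (i : ι → T.A (V.prod U)) (r : ι → T.A (U.prod V)), ∀ s t,
      T.comp (r s) (i t) = if s = t then T.diag V else 0 := by
  obtain ⟨P, hP, c, c', hc⟩ := (bi_fin R _).of_injective _ (Fintype.equivFin ι).injective
  refine ⟨V.prod P, h.prod hP, fun t => inc V (c t), fun s => prj V (c' s), fun s t => ?_⟩
  rw [prj_inc _ _ _ (hc t s)]
  by_cases hst : s = t
  · rw [if_pos hst, if_pos hst.symm, one_smul]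
  · rw [if_neg hst, if_neg (Ne.symm hst), zero_smul]

theorem exists_retract (V P : SmProj k) : ∃ (i : T.A (V.prod (V.prod P)))
    (r : T.A ((V.prod P).prod V)), T.comp r i = T.diag V := by
  obtain ⟨s⟩ := P.exists_ptHom
  refine ⟨inc V 1, prj V (T.cl P (s.left (SmProj.pt k).gen)), ?_⟩
  rw [prj_inc _ _ 1 (by rw [one_mul, T.tr_cl_point, map_one]), one_smul]

theorem exists_retract' (P V : SmProj k) : ∃ (i : T.A (V.prod (P.prod V)))
    (r : T.A ((P.prod V).prod V)), T.comp r i = T.diag V := by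
  obtain ⟨i, r, h⟩ := exists_retract (T := T) V P
  refine ⟨pb T V (pair (sndH P V) (fstH P V)) i, par T V (pair (sndH P V) (fstH P V)) r, ?_⟩
  rw [← comp_gr, T.comp_assoc, ← one_mul (pb T V _ i), gr_comp_mul,
    ← map_one (cst T V (P.prod V)), gr_comp_cst,
    T.push_eq_pull _ _ (swap_swap P V) (swap_swap V P), map_one, map_one, one_mul, h]

theorem exists_merge (R : CycleMap T W) (h : FD T V) (h' : FD T V') :
    ∃ U, FD T U ∧ ∃ (i : T.A (V.prod U)) (r : T.A (U.prod V)) (i' : T.A (V'.prod U))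
      (r' : T.A (U.prod V')), T.comp r i = T.diag V ∧ T.comp r' i' = T.diag V' ∧
      T.comp r i' = 0 ∧ T.comp r' i = 0 := by
  obtain ⟨U, hU, i, r, e⟩ := exists_copies R (h.prod h') Bool
  obtain ⟨a, b, hab⟩ := exists_retract (T := T) V V'
  obtain ⟨a', b', hab'⟩ := exists_retract' (T := T) V V'
  refine ⟨U, hU, T.comp (i true) a, T.comp b (r true), T.comp (i false) a', T.comp b' (r false),
    ?_, ?_, ?_, ?_⟩ <;>
  rw [T.comp_assoc, ← T.comp_assoc (r _), e] <;>
  simp [T.diag_comp, T.zero_comp, T.comp_zero, hab, hab']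

end Pool.Agent.P.MP_638e8a_ag.K
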