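import Pool.Agent.P.MP_638e8a_ag.K.Bridge
import Pool.Agent.P.MP_638e8a_ag.K.Defs

/-!
The induction.
-/

open CategoryTheory AlgebraicGeometry

universe u v w

namespace Pool.Agent.P.MP_638e8a_ag.K

open Pool.Agent.P.MP_90138e_ag
open H58 (toL)

variable {k : Type u} [Field k] [IsAlgClosed k] {K : Type v} [Field K] [CharZero K]

omit [IsAlgClosed k] in
theorem toL_prod (X Y : H58.SmProj k) : toL (X.prod Y) = (toL X).prod (toL Y) := rfl

theorem CurveDom.fd {T : ChowTheory k} {W : WeilCohomology.{u, v, w} k K} (R : CycleMap T W)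
    {X : H58.SmProj k} (h : CurveDom X) : FD T (toL X) := by
  induction h with
  | curve X h => exact fd_curve R h
  | prod X Y _ _ h h' => rw [toL_prod]; exact h.prod h'
  | image X Y f hf _ h => exact @FD.image _ _ (toL X) (toL Y) _ h f hf _

theorem CurveDom.curveType (W : WeilCohomology.{u, v, w} k K) {X : H58.SmProj k}
    (h : CurveDom X) : W.CurveType (toL X) := by
  induction h with
  | curve X h => exact .curve _ h
  | prod X Y _ _ h h' => rw [toL_prod]; exact .prod _ _ h h'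
  | image X Y f hf _ h => exact .image (toL X) (toL Y) f hf h

variable {A : H58.Chow k} (hA : H58.IsStandard A) {W : H58.Weil.{u, v, w} A K}

theorem Motivated.mot {Y : H58.SmProj k} {i : ℕ} (h : Motivated W Y i) :
    Mot (isWeil_toD hA W).toWeil (toL Y) i := by
  obtain ⟨V, e, c, P, U, h1, h2, h3, h4, h5⟩ := h
  have hP : (isWeil_toD hA W).toWeil.AlgOp (X := toL V) (Y := toL V) P :=
    ⟨_, (toR hA W).isAlg_γ (X := (toL V).prod (toL V)) e, h2⟩
  have hU : (isWeil_toD hA W).toWeil.AlgOp (X := toL V) (Y := toL Y) U :=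
    ⟨_, (toR hA W).isAlg_γ (X := (toL V).prod (toL Y)) c, h3⟩
  refine ⟨toL V, P, U ∘ₗ P, h1.curveType _, hP, hU.comp hP, h4,
    (LinearMap.comp_assoc P P U).trans (congrArg (U ∘ₗ ·) h4), h5.congr ?_⟩
  rintro _ ⟨x, rfl⟩
  exact congrArg U (LinearMap.congr_fun h4 x).symm

theorem Lefschetz.exists {M : Marked A} (h : Lefschetz W M) :
    ∃ h ∈ M.ring, h ∈ (toT hA).CH (toL M.X) 1 ∧ HardLefschetz
      ((isWeil_toD hA W).toWeil.deg (toL M.X)) M.X.dim ((toR hA W).γ (toL M.X) h) := by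
  obtain ⟨h, h1, h2, h3⟩ := h
  refine ⟨h, h1, (mem_CH hA).2 h2, fun i hi => ?_⟩
  rcases hi.lt_or_eq with hi | rfl
  · exact h3 i hi
  · rw [Nat.sub_self, show 2 * M.X.dim - M.X.dim = M.X.dim by omega]
    exact (Set.bijOn_id _).congr fun x _ => by rw [pow_zero, one_mul, id]

theorem Kleiman.good {M : Marked A} (h : Kleiman W M) : CurveDom M.C ∧
    Good (toR hA W) (toL M.X) (rho (T := toT hA) (X := toL M.X) (C := toL M.C) M.a M.N) := by
  induction h with
  | atom M h1 h2 h3 h4 =>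
    obtain ⟨h, h5, h6, h7⟩ := h3.exists hA
    exact ⟨h1, good_atom _ (finT_rho (toR hA W) (h1.fd (toR hA W)) _ h2) (isRg_rho _ _)
      (cst_mem_rho h5) h6 h7 fun i hi => (h4 i hi).mot hA⟩
  | prod M M' _ _ h h' =>
    have h1 := (h.2.prod h'.2).mono (rho_prod _ _ _ _)
    exact ⟨.prod _ _ h.1 h'.1, h1⟩
  | map M Z f N _ h1 h2 h3 h4 ih =>
    obtain ⟨h, h5, h6, h7⟩ := h3.exists hA
    refine ⟨ih.1, ih.2.sec (Z := toL Z) f (finT_rho (toR hA W) (ih.1.fd (toR hA W)) _ h1)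
      (isRg_rho _ _) (rho_push (T := toT hA) (X := toL M.X) (C := toL M.C) (Z := toL Z) f h2)
      (N := Marked.ring ⟨Z, M.C, f ≫ M.a, N⟩) (fun r hr => cst_mem_rho hr) h5 h6 h7
      fun i hi => ?_⟩
    obtain ⟨m, n, e, j, h8, h9⟩ := h4 i hi
    exact ⟨m, n, e, j, fun t => ⟨(h8 t).1, (mem_CH hA).2 (h8 t).2.1, (h8 t).2.2⟩, h9⟩

include hA in
theorem Kleiman.hasCK {M : Marked A} (h : Kleiman W M) : W.HasCK M.X :=
  hasCK_toH hA W (h.good hA).2.hasCK

end Pool.Agent.P.MP_638e8a_ag.K
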