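import Pool.Agent.P.MP_638e8a_ag.K.St

/-!
The invariant of the induction, and products.
-/

open CategoryTheory AlgebraicGeometry MonoidalCategory CartesianMonoidalCategory Order

universe u v w

namespace Pool.Agent.P.MP_638e8a_ag.K

open Pool.Agent.P.MP_90138e_ag
open Pool.Agent.P.MP_90138e_ag.WeilCohomology (fstH sndH)
open ChowTheory Sv

variable {k : Type u} [Field k] {S S' V X X' Y Y' Z : SmProj k} {T : ChowTheory k}

theorem act_boxc (g : T.A (X.prod X)) (g' : T.A (X'.prod X')) (a : T.A (S.prod (X.prod X)))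
    (b : T.A (S.prod (X'.prod X'))) :
    act (T.boxc g g')
      (pb T S (pair (fstH (X.prod X') (X.prod X') ≫ fstH X X') (sndH _ _ ≫ fstH X X')) a *
        pb T S (pair (fstH _ _ ≫ sndH X X') (sndH _ _ ≫ sndH X X')) b) =
      pb T S (pair (fstH (X.prod X') (X.prod X') ≫ fstH X X') (sndH _ _ ≫ fstH X X')) (act g a) *
        pb T S (pair (fstH _ _ ≫ sndH X X') (sndH _ _ ≫ sndH X X')) (act g' b) := by
  rw [← T.ev_fst_snd (act _ _), ev_act, pb_eq _ (act g a), pb_eq _ (act g' b), ev_act, ev_act,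
    int_mul_int]
  simp only [ev_mul, T.ev_boxc, map_mul, pb_eq, ev_ev, comp_pair, pair_fst_assoc, pair_snd,
    pair_fst, pair_snd_assoc, Category.assoc]
  congr 1
  ring

variable [IsAlgClosed k] {K : Type v} [Field K] [CharZero K] {W : WeilCohomology.{u, v, w} k K}

/-- `O` contains the Kuenneth projectors and an isomorphism reversing the grading. -/
structure Lef (W : WeilCohomology.{u, v, w} k K) (X : SmProj k)
    (O : Subring (Module.End K (W.H X))) : Prop where
  proj : ∀ i, W.proj X i ∈ O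
  theta : ∃ Θ ∈ O, Function.Injective Θ ∧
    ∀ j j', j + j' = 2 * X.dim → ∀ x ∈ W.deg X j, Θ x ∈ W.deg X j'

/-- The invariant. -/
def Good (R : CycleMap T W) (X : SmProj k) (ρ : Sv T X) : Prop :=
  ∃ σ : Sv T (X.prod X), Pt σ ∧ Md (sndH X X) ρ σ ∧ Lef W X (Ops R σ)

theorem Good.mono {R : CycleMap T W} {ρ ρ' : Sv T X} (h : Good R X ρ) (h' : ρ'.Le ρ) :
    Good R X ρ' := by
  obtain ⟨σ, h1, h2, h3⟩ := h
  exact ⟨σ, h1, h2.mono h', h3⟩

theorem Good.hasCK {R : CycleMap T W} {ρ : Sv T X} (h : Good R X ρ) : HasCK R X := by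
  obtain ⟨σ, h1, -, h3⟩ := h
  exact hasCK_of_ops R h1 h3.proj

theorem proj_eq_zero {i : ℕ} (h : 2 * X.dim < i) : W.proj X i = 0 :=
  LinearMap.ext fun x => (Submodule.eq_bot_iff _).1 (W.deg_eq_bot X i h) _ (W.proj_mem X i x)

theorem pow_mem_deg {η : W.H X} (h : η ∈ W.deg X 2) (r : ℕ) : η ^ r ∈ W.deg X (2 * r) := by
  simpa [mul_comm] using SetLike.pow_mem_graded r h

theorem lef_of_theta {O : Subring (Module.End K (W.H X))} (hp : ∀ i, W.proj X i ∈ O)
    (θ : ℕ → Module.End K (W.H X)) (h : ∀ i j, i + j = 2 * X.dim → θ i ∈ O ∧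
      ∀ x ∈ W.deg X j, θ i x ∈ W.deg X i ∧ (θ i x = 0 → x = 0)) : Lef W X O := by
  have h1 : ∀ j j', j + j' = 2 * X.dim → ∀ x ∈ W.deg X j,
      (∑ i ∈ Finset.range (2 * X.dim + 1), θ i * W.proj X (2 * X.dim - i)) x = θ j' x := by
    intro j j' hj x hx
    rw [LinearMap.sum_apply, Finset.sum_eq_single j', Module.End.mul_apply,
      W.proj_of_mem (by rwa [show 2 * X.dim - j' = j by omega])]
    · intro i hi hij
      have := Finset.mem_range.1 hi
      rw [Module.End.mul_apply, W.proj_of_mem_ne hx (by omega), map_zero]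
    · intro h
      exact absurd (Finset.mem_range.2 (by omega)) h
  refine ⟨hp, _, sum_mem fun i hi => mul_mem (h i (2 * X.dim - i) (by
    have := Finset.mem_range.1 hi
    omega)).1 (hp _), (injective_iff_map_eq_zero _).2 fun x hx => ?_,
    fun j j' hj x hx => h1 j j' hj x hx ▸ ((h j' j (by omega)).2 x hx).1⟩
  rw [← W.sum_proj X x] at hx ⊢
  refine Finset.sum_eq_zero fun j hj => ?_
  have hj' := Finset.mem_range.1 hj
  refine ((h (2 * X.dim - j) j (by omega)).2 _ (W.proj_mem X j x)).2 ?_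
  have h2 := congrArg (W.proj X (2 * X.dim - j)) hx
  rw [map_sum, map_sum, map_zero, Finset.sum_eq_single_of_mem j hj,
    h1 j (2 * X.dim - j) (by omega) _ (W.proj_mem X j x),
    W.proj_of_mem ((h _ j (by omega)).2 _ (W.proj_mem X j x)).1] at h2
  · exact h2
  · intro m hm hmj
    have hm' := Finset.mem_range.1 hm
    rw [h1 m (2 * X.dim - m) (by omega) _ (W.proj_mem X m x)]
    exact W.proj_of_mem_ne ((h _ m (by omega)).2 _ (W.proj_mem X m x)).1 (by omega)

theorem lef_of_inv {O : Subring (Module.End K (W.H X))} {η : W.H X} (hη : η ∈ W.deg X 2)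
    (hL : HardLefschetz (W.deg X) X.dim η) (hO : LinearMap.mulLeft K η ∈ O)
    (hB : ∀ i < X.dim, ∃ B ∈ O, (∀ x ∈ W.deg X i, B (η ^ (X.dim - i) * x) = x) ∧
      ∀ m, m + i ≠ 2 * X.dim → ∀ y ∈ W.deg X m, B y = 0) : Lef W X O := by
  have hl : ∀ r, LinearMap.mulLeft K (η ^ r) ∈ O := fun r =>
    LinearMap.pow_mulLeft K _ η r ▸ pow_mem hO r
  choose! B hB1 hB2 hB3 using hB
  have h1 : ∀ i < X.dim, W.proj X i ∈ O := fun i hi => by
    have e : W.proj X i = B i * LinearMap.mulLeft K (η ^ (X.dim - i)) := by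
      refine W.hom_ext fun m x hx => ?_
      rw [Module.End.mul_apply, LinearMap.mulLeft_apply]
      by_cases hm : m = i
      · subst hm
        rw [W.proj_of_mem hx, hB2 m hi x hx]
      · rw [W.proj_of_mem_ne hx hm,
          hB3 i hi _ (by omega) _ (WeilCohomology.mul_mem_deg (pow_mem_deg hη _) hx)]
    exact e ▸ mul_mem (hB1 i hi) (hl _)
  have h2 : ∀ i < X.dim, W.proj X (2 * X.dim - i) ∈ O := fun i hi => by
    have e : W.proj X (2 * X.dim - i) = LinearMap.mulLeft K (η ^ (X.dim - i)) * B i := by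
      refine W.hom_ext fun m x hx => ?_
      rw [Module.End.mul_apply, LinearMap.mulLeft_apply]
      by_cases hm : m = 2 * X.dim - i
      · subst hm
        obtain ⟨y, hy, rfl⟩ := (hL i hi.le).surjOn hx
        rw [W.proj_of_mem hx, hB2 i hi y hy]
      · rw [W.proj_of_mem_ne hx hm, hB3 i hi _ (by omega) _ hx, mul_zero]
    exact e ▸ mul_mem (hl _) (hB1 i hi)
  have h3 : ∀ i, i ≠ X.dim → W.proj X i ∈ O := fun i hi => by
    rcases Nat.lt_or_gt_of_ne hi with h | h
    · exact h1 i h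
    · by_cases h' : 2 * X.dim < i
      · rw [proj_eq_zero h']
        exact zero_mem _
      · have := h2 (2 * X.dim - i) (by omega)
        rwa [show 2 * X.dim - (2 * X.dim - i) = i by omega] at this
  have h4 : ∀ i, W.proj X i ∈ O := fun i => by
    by_cases hi : i = X.dim
    · have e : W.proj X i = 1 - ∑ m ∈ (Finset.range (2 * X.dim + 1)).erase i, W.proj X m := by
        refine LinearMap.ext fun x => ?_
        rw [LinearMap.sub_apply, LinearMap.sum_apply, eq_sub_iff_add_eq,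
          Finset.add_sum_erase _ (fun m => W.proj X m x) (Finset.mem_range.2 (by omega)),
          W.sum_proj, Module.End.one_apply]
      exact e ▸ sub_mem (one_mem _) (sum_mem fun m hm => h3 m (hi ▸ Finset.ne_of_mem_erase hm))
    · exact h3 i hi
  refine lef_of_theta h4
    (fun i => if i < X.dim then B i else LinearMap.mulLeft K (η ^ (i - X.dim))) fun i j hij => ?_
  split_ifs with hi
  · refine ⟨hB1 i hi, fun x hx => ?_⟩
    obtain ⟨y, hy, rfl⟩ := (hL i hi.le).surjOn (by rwa [show 2 * X.dim - i = j by omega])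
    rw [hB2 i hi y hy]
    exact ⟨hy, fun h => by rw [h]; exact mul_zero _⟩
  · refine ⟨hl _, fun x hx => ?_⟩
    have h5 := hL j (by omega)
    rw [show X.dim - j = i - X.dim by omega, show 2 * X.dim - j = i by omega] at h5
    exact ⟨h5.mapsTo hx, fun h => h5.injOn hx (zero_mem _) (h.trans (mul_zero _).symm)⟩

theorem box_mem {P : W.H X →ₗ[K] W.H Y} {Q : W.H X' →ₗ[K] W.H Y'} {a b : ℕ}
    (hP : ∀ x, P x ∈ W.deg Y a) (hQ : ∀ x, Q x ∈ W.deg Y' b) (z : W.H (X.prod X')) :
    W.box P Q z ∈ W.deg (Y.prod Y') (a + b) := by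
  have e : W.box P Q = W.proj _ (a + b) ∘ₗ W.box P Q := W.kun_ext fun x y => by
    rw [LinearMap.comp_apply, W.box_apply]
    exact (W.proj_of_mem (WeilCohomology.mul_mem_deg (W.pull_deg (fstH Y Y') _ _ (hP x))
      (W.pull_deg (sndH Y Y') _ _ (hQ y)))).symm
  rw [e]
  exact W.proj_mem _ _ _

theorem proj_prod (X Y : SmProj k) (i : ℕ) : W.proj (X.prod Y) i =
    ∑ p ∈ Finset.HasAntidiagonal.antidiagonal i, W.box (W.proj X p.1) (W.proj Y p.2) := by
  refine W.kun_ext fun x y => ?_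
  rw [LinearMap.sum_apply]
  simp only [W.box_apply]
  induction x using DirectSum.Decomposition.inductionOn (W.deg X) with
  | zero => simp
  | add a b ha hb => simp only [map_add, add_mul, ha, hb, Finset.sum_add_distrib]
  | @homogeneous m x =>
    induction y using DirectSum.Decomposition.inductionOn (W.deg Y) with
    | zero => simp
    | add a b ha hb => simp only [map_add, mul_add, ha, hb, Finset.sum_add_distrib]
    | @homogeneous n y =>
      have h := WeilCohomology.mul_mem_deg (W.pull_deg (fstH X Y) _ _ x.2)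
        (W.pull_deg (sndH X Y) _ _ y.2)
      have h0 : ∀ p : ℕ × ℕ, p ≠ (m, n) →
          W.p1 X Y (W.proj X p.1 x) * W.p2 X Y (W.proj Y p.2 y) = 0 := fun p hp => by
        by_cases h1 : m = p.1
        · rw [W.proj_of_mem_ne y.2 fun h2 => hp (Prod.ext h1.symm h2.symm), map_zero, mul_zero]
        · rw [W.proj_of_mem_ne x.2 h1, map_zero, zero_mul]
      by_cases hi : m + n = i
      · rw [Finset.sum_eq_single_of_mem (m, n) (Finset.HasAntidiagonal.mem_antidiagonal.2 hi) fun p _ => h0 p,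
          W.proj_of_mem x.2, W.proj_of_mem y.2]
        exact W.proj_of_mem (hi ▸ h)
      · rw [Finset.sum_eq_zero fun p hp => h0 p fun e =>
          hi (by rw [e] at hp; exact Finset.HasAntidiagonal.mem_antidiagonal.1 hp)]
        exact W.proj_of_mem_ne h hi

theorem Lef.prod {O : Subring (Module.End K (W.H X))} {O' : Subring (Module.End K (W.H Y))}
    {O'' : Subring (Module.End K (W.H (X.prod Y)))} (h : Lef W X O) (h' : Lef W Y O')
    (hb : ∀ P ∈ O, ∀ Q ∈ O', W.box P Q ∈ O'') : Lef W (X.prod Y) O'' := by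
  obtain ⟨Θ, h1, h2, h3⟩ := h.theta
  obtain ⟨Θ', h1', h2', h3'⟩ := h'.theta
  refine ⟨fun i => proj_prod (W := W) X Y i ▸ sum_mem fun p _ => hb _ (h.proj _) _ (h'.proj _),
    W.box Θ Θ', hb _ h1 _ h1', ?_, fun j j' hj x hx => ?_⟩
  · obtain ⟨g, hg⟩ := Θ.exists_leftInverse_of_injective (LinearMap.ker_eq_bot.2 h2)
    obtain ⟨g', hg'⟩ := Θ'.exists_leftInverse_of_injective (LinearMap.ker_eq_bot.2 h2')
    refine Function.LeftInverse.injective (g := W.box g g') fun z => ?_
    rw [← LinearMap.comp_apply, ← WeilCohomology.box_comp, hg, hg', box_id_id, LinearMap.id_apply]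
  · rw [← W.proj_of_mem hx, proj_prod, LinearMap.sum_apply, map_sum]
    refine Submodule.sum_mem _ fun p hp => ?_
    have hp' := Finset.HasAntidiagonal.mem_antidiagonal.1 hp
    have hd : (X.prod Y).dim = X.dim + Y.dim := rfl
    by_cases ha : 2 * X.dim < p.1
    · rw [proj_eq_zero ha, fd_box_zero_left, LinearMap.zero_apply, map_zero]
      exact zero_mem _
    by_cases hb : 2 * Y.dim < p.2
    · rw [proj_eq_zero hb, fd_box_zero_right, LinearMap.zero_apply, map_zero]
      exact zero_mem _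
    rw [← LinearMap.comp_apply, ← WeilCohomology.box_comp,
      show j' = (2 * X.dim - p.1) + (2 * Y.dim - p.2) by omega]
    exact box_mem (P := Θ ∘ₗ W.proj X p.1) (Q := Θ' ∘ₗ W.proj Y p.2)
      (fun x => h3 p.1 _ (by omega) _ (W.proj_mem X _ x))
      (fun y => h3' p.2 _ (by omega) _ (W.proj_mem Y _ y)) x

theorem Good.prod {R : CycleMap T W} {ρ : Sv T X} {ρ' : Sv T Y} (h : Good R X ρ)
    (h' : Good R Y ρ') : Good R (X.prod Y) (bil (fstH X Y) (sndH X Y) ρ ρ') := by
  obtain ⟨σ, h1, h2, h3⟩ := h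
  obtain ⟨σ', h1', h2', h3'⟩ := h'
  refine ⟨bil (pair (fstH (X.prod Y) (X.prod Y) ≫ fstH X Y) (sndH _ _ ≫ fstH X Y))
    (pair (fstH _ _ ≫ sndH X Y) (sndH _ _ ≫ sndH X Y)) σ σ', ⟨h1.fin.bil h1'.fin _ _, fun S => ?_⟩,
    md_of_bil ?_ ?_, h3.prod h3' fun P hP Q hQ => ?_⟩
  · rw [← boxc_diag, boxc, map_mul, ev, ev, ← pb_cst, ← pb_cst]
    exact mem_bil _ _ (h1.diag S) (h1'.diag S)
  · have h4 := md_bil_left
      (p := pair (fstH (X.prod Y) (X.prod Y) ≫ fstH X Y) (sndH _ _ ≫ fstH X Y))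
      (q := pair (fstH _ _ ≫ sndH X Y) (sndH _ _ ≫ sndH X Y)) σ' h2
    rwa [pair_snd] at h4
  · have h4 := md_bil_right
      (p := pair (fstH (X.prod Y) (X.prod Y) ≫ fstH X Y) (sndH _ _ ≫ fstH X Y))
      (q := pair (fstH _ _ ≫ sndH X Y) (sndH _ _ ≫ sndH X Y)) σ h2'
    rwa [pair_snd] at h4
  · refine Ops_ind R (Q := fun P => W.box P Q ∈ _) ?_ (fun a b ha hb => ?_)
      (fun g hg i hi => ?_) hP
    · rw [fd_box_zero_left]
      exact zero_mem _
    · rw [box_add_left]
      exact add_mem ha hb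
    refine Ops_ind R (Q := fun Q => W.box (R.op g) Q ∈ _) ?_ (fun a b ha hb => ?_)
      (fun g' hg' j hj => ?_) hQ
    · rw [fd_box_zero_right]
      exact zero_mem _
    · rw [box_add_right]
      exact add_mem ha hb
    rw [← R.op_boxc]
    refine op_mem_Ops R (fun S ψ hψ => comp_bil _ _ (fun S a ha b hb => ?_) hψ) (T.boxc_mem hi hj)
    change act (T.boxc g g') _ ∈ _
    rw [act_boxc]
    exact mem_bil _ _ (hg S a ha) (hg' S b hb)

end Pool.Agent.P.MP_638e8a_ag.K
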