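import Pool.Agent.P.MP_638e8a_ag.K.Atom

/-!
The sieve of rings attached to a morphism and a finite set of classes.
-/

open CategoryTheory AlgebraicGeometry MonoidalCategory CartesianMonoidalCategory Order

universe u v w

namespace Pool.Agent.P.MP_638e8a_ag.K

open Pool.Agent.P.MP_90138e_ag
open Pool.Agent.P.MP_90138e_ag.WeilCohomology (fstH sndH)
open ChowTheory Sv

variable {k : Type u} [Field k] {C C' S X X' Y Z : SmProj k} {T : ChowTheory k}

/-- The sieve generated by the products of classes in `N` and of families pulled back along `a`. -/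
noncomputable def rho (a : X.X ⟶ C.X) (N : Set (T.A X)) : Sv T X :=
  bil (𝟙 _) a (con (Algebra.adjoin ℚ N).toSubmodule) (Sv.top T C)

theorem isRg_rho (a : X.X ⟶ C.X) (N : Set (T.A X)) : IsRg (rho a N) :=
  (isRg_con _).bil isRg_top _ _

theorem pb_mem_rho (a : X.X ⟶ C.X) (N : Set (T.A X)) (y : T.A (S.prod C)) :
    pb T S a y ∈ (rho a N).c S := by
  simpa only [rho, map_one, one_mul] using
    mem_bil (τ := Sv.top T C) (b := y) (𝟙 _) a ((isRg_con (Algebra.adjoin ℚ N)).one S) trivial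

theorem cst_mem_of_adjoin {ρ : Sv T X} (h : IsRg ρ) {N : Set (T.A X)}
    (hN : ∀ n ∈ N, ∀ S, cst T S X n ∈ ρ.c S) {r : T.A X} (hr : r ∈ Algebra.adjoin ℚ N)
    (S : SmProj k) : cst T S X r ∈ ρ.c S := by
  induction hr using Algebra.adjoin_induction with
  | mem x hx => exact hN x hx S
  | algebraMap q =>
    rw [AlgHom.commutes, Algebra.algebraMap_eq_smul_one]
    exact Submodule.smul_mem _ _ (h.one S)
  | add x y _ _ hx hy => rw [map_add]; exact add_mem hx hy
  | mul x y _ _ hx hy => rw [map_mul]; exact h.mul hx hy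

theorem cst_mem_rho {a : X.X ⟶ C.X} {N : Set (T.A X)} {r : T.A X}
    (hr : r ∈ Algebra.adjoin ℚ (N ∪ Set.range (T.pull a))) (S : SmProj k) :
    cst T S X r ∈ (rho a N).c S := by
  refine cst_mem_of_adjoin (isRg_rho a N) ?_ hr S
  rintro n (hn | ⟨y, rfl⟩) S
  · simpa only [rho, map_one, mul_one, pb_id] using mem_bil (τ := Sv.top T C) (b := 1) (𝟙 _) a
      (mem_con (N := (Algebra.adjoin ℚ N).toSubmodule) (Algebra.subset_adjoin hn) S) trivial
  · rw [← pb_cst]
    exact pb_mem_rho a N _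

theorem rho_le {a : X.X ⟶ C.X} {N : Set (T.A X)} {ρ : Sv T X} (h : IsRg ρ)
    (hN : ∀ n ∈ N, ∀ S, cst T S X n ∈ ρ.c S) (ha : ∀ S y, pb T S a y ∈ ρ.c S) :
    (rho a N).Le ρ := bil_le _ fun S x hx y _ => by
  rw [pb_id]
  exact h.mul (con_le ρ (fun S r hr => cst_mem_of_adjoin h hN hr S) S x hx) (ha S y)

theorem rho_push {a : X.X ⟶ C.X} {N : Set (T.A X)} (f : Z.X ⟶ X.X) {N' : Set (T.A Z)}
    (h : ∀ n ∈ Algebra.adjoin ℚ N', T.push f n ∈ Algebra.adjoin ℚ (N ∪ Set.range (T.pull a)))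
    (S : SmProj k) (r : T.A (S.prod Z)) (hr : r ∈ (rho (f ≫ a) N').c S) :
    T.comp (gr T f) r ∈ (rho a N).c S := by
  refine comp_bil _ _ (fun S x hx y _ => ?_) hr
  rw [pb_id, ← pb_pb, gr_comp_mul]
  refine (isRg_rho a N).mul (con_le ((rho a N).comap (gr T f)) (fun S n hn => ?_) S x hx)
    (pb_mem_rho a N y)
  change T.comp _ _ ∈ (rho a N).c S
  rw [gr_comp_cst]
  exact cst_mem_rho (h n hn) S

theorem rho_prod (a : X.X ⟶ C.X) (N : Set (T.A X)) (a' : X'.X ⟶ C'.X) (N' : Set (T.A X')) :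
    (rho (pair (fstH X X' ≫ a) (sndH X X' ≫ a'))
      (T.pull (fstH X X') '' N ∪ T.pull (sndH X X') '' N')).Le
      (bil (fstH X X') (sndH X X') (rho a N) (rho a' N')) := by
  refine rho_le ((isRg_rho a N).bil (isRg_rho a' N') _ _) ?_ fun S y => ?_
  · rintro _ (⟨n, hn, rfl⟩ | ⟨n, hn, rfl⟩) S
    · simpa only [map_one, mul_one, pb_cst] using mem_bil (fstH X X') (sndH X X')
        (cst_mem_rho (Algebra.subset_adjoin (Or.inl hn)) S) ((isRg_rho a' N').one S)
    · simpa only [map_one, one_mul, pb_cst] using mem_bil (fstH X X') (sndH X X')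
        ((isRg_rho a N).one S) (cst_mem_rho (Algebra.subset_adjoin (Or.inl hn)) S)
  · rw [← T.diag_comp y, pb_comp]
    refine Sv.nat _ _ ?_
    have h := mem_bil (fstH X X') (sndH X X')
      (pb_mem_rho a N (par T C (fstH C C') (T.diag C)))
      (pb_mem_rho a' N' (par T C' (sndH C C') (T.diag C')))
    rw [pb_eq, ev_diag, dl_prod]
    simpa only [pb_eq, ev_ev, ev_par, ev_diag, ev_dl, Category.assoc, pair_fst, pair_snd,
      pair_snd_assoc, pair_fst_assoc] using h

variable [IsAlgClosed k] {K : Type v} [Field K] [CharZero K] {W : WeilCohomology.{u, v, w} k K}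

theorem isIntegral_class (W : WeilCohomology.{u, v, w} k K) (x : T.A X) : IsIntegral ℚ x := by
  induction x using T.hom_ind with
  | h0 => exact isIntegral_zero
  | hadd a b ha hb => exact ha.add hb
  | h j x hx =>
    rcases Nat.eq_zero_or_pos j with rfl | hj
    · obtain ⟨q, rfl⟩ := eq_smul_one hx
      exact isIntegral_one.smul q
    · refine IsIntegral.of_pow (n := X.dim + 1) (by omega) ?_
      rw [T.eq_zero_of_dim_lt W (by nlinarith) (pow_mem hx (X.dim + 1))]
      exact isIntegral_zero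

theorem finT_rho (R : CycleMap T W) (hC : FD T C) (a : X.X ⟶ C.X) {N : Set (T.A X)}
    (hN : N.Finite) : FinT (rho a N) :=
  (finT_con R (fg_adjoin_of_finite hN fun x _ => isIntegral_class W x)).bil (finT_top hC) _ _

end Pool.Agent.P.MP_638e8a_ag.K
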