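import Pool.Agent.P.MP_638e8a_ag.K.Good

/-!
The invariant passes from the target of a morphism to its source when the cohomology of the source
below the middle degree is a sum of copies of the cohomology of the target.
-/

open CategoryTheory AlgebraicGeometry MonoidalCategory CartesianMonoidalCategory Order

universe u v w

namespace Pool.Agent.P.MP_638e8a_ag.K

open Pool.Agent.P.MP_90138e_ag
open Pool.Agent.P.MP_90138e_ag.WeilCohomology (fstH sndH)
open ChowTheory Sv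

variable {k : Type u} [Field k] {S S' V X X' Y Y' Z : SmProj k} {T : ChowTheory k}

theorem act_fst_mul (g : T.A (X.prod X')) (r : T.A (S.prod Y)) (ψ : T.A (S.prod (Y.prod X))) :
    act g (pb T S (fstH Y X) r * ψ) = pb T S (fstH Y X') r * act g ψ := by
  rw [← T.ev_fst_snd (act g (_ * _)), ← T.ev_fst_snd (act g ψ), ev_act, ev_act,
    ← T.int_pull_mul, ev_mul, ev_pb, pb_eq, T.pull_ev, pair_fst, mul_assoc]

theorem act_pb (g : T.A (X.prod X')) (f : Y'.X ⟶ Y.X) (ψ : T.A (S.prod (Y.prod X))) :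
    act g (pb T S (pair (fstH Y' X ≫ f) (sndH Y' X)) ψ) =
      pb T S (pair (fstH Y' X' ≫ f) (sndH Y' X')) (act g ψ) := by
  rw [← T.ev_fst_snd (act g (pb _ _ _ _)), pb_eq _ (act g ψ), ev_act, ev_act, ev_pb]
  simp only [comp_pair, pair_fst_assoc, pair_snd, pair_fst, Category.assoc]

theorem act_pb_snd (g : T.A (X.prod X')) (r : T.A (S.prod X)) :
    act g (pb T S (sndH Y X) r) = pb T S (sndH Y X') (T.comp g r) := by
  rw [← T.ev_fst_snd (act g _), ev_act, ev_pb, pair_snd, pb_eq, T.ev_comp]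

theorem gr_mem (f : Y.X ⟶ X.X) : gr T f ∈ T.CH _ X.dim := T.pull_mem _ (T.diag_mem X)

theorem mo_mem {r : T.A X} {j : ℕ} (h : r ∈ T.CH X j) : mo r ∈ T.CH _ (X.dim + j) :=
  T.mul_mem (T.diag_mem X) (T.pull_mem _ h)

theorem push_mem' (f : Y.X ⟶ X.X) {r : T.A Y} {j : ℕ} (h : r ∈ T.CH Y j) :
    ∃ i, T.push f r ∈ T.CH X i := by
  by_cases h' : j + X.dim < Y.dim
  · exact ⟨0, T.push_eq_zero f h' h ▸ zero_mem _⟩
  · exact ⟨j + X.dim - Y.dim, T.push_mem f (by omega) h⟩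

theorem pow_mem {r : T.A X} {j : ℕ} (h : r ∈ T.CH X j) (n : ℕ) : r ^ n ∈ T.CH X (n * j) := by
  induction n with
  | zero => simpa using T.one_mem X
  | succ n ih => rw [pow_succ, add_mul, one_mul]; exact T.mul_mem ih h

/-- The multiples of the diagonal. -/
noncomputable def dg (ρ : Sv T Y) : Sv T (Y.prod Y) :=
  bil (sndH Y Y) (𝟙 _) ρ (con (Submodule.span ℚ {T.diag Y}))

theorem dg_le {ρ : Sv T Y} (g : T.A (Y.prod X)) (τ : Sv T (Y.prod X))
    (h : ∀ S, ∀ r ∈ ρ.c S, pb T S (fstH Y X) r * cst T S _ g ∈ τ.c S) :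
    (dg ρ).Le (τ.comap (T.boxc (T.diag Y) g)) := by
  refine bil_le _ fun S a ha b hb => mul_con _ _ ρ _ (fun S r hr x hx => ?_) ha hb
  obtain ⟨q, rfl⟩ := Submodule.mem_span_singleton.1 hx
  rw [map_smul, map_smul, mul_smul_comm, T.pull_id]
  refine Submodule.smul_mem _ _ ?_
  have e : cst T S _ (T.diag Y) =
      T.dl (sndH S (Y.prod Y) ≫ fstH Y Y) (sndH _ _ ≫ sndH Y Y) := by
    rw [dl, ev, pair_eta, cst]
  change act g _ ∈ τ.c S
  rw [e, pb_eq, mul_comm, ← dl_ev, mul_comm, ← pb_eq, ← e, act_fst_mul, act_cst_diag]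
  exact h S r hr

theorem diag_mem_dg {ρ : Sv T Y} (h : IsRg ρ) (S : SmProj k) :
    cst T S _ (T.diag Y) ∈ (dg ρ).c S := by
  simpa only [dg, map_one, one_mul, pb_id] using mem_bil (sndH Y Y) (𝟙 _) (h.one S)
    (mem_con (Submodule.mem_span_singleton_self (T.diag Y)) S)

theorem md_bil_self {ρ κ : Sv T Y} (h : Md (𝟙 _) ρ κ) (p : Z.X ⟶ Y.X) (q : Z.X ⟶ Y'.X)
    (τ : Sv T Y') : Md p ρ (bil p q κ τ) := by
  simpa only [Category.comp_id] using md_bil_left (p := p) (q := q) τ h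

variable [IsAlgClosed k] {K : Type v} [Field K] [CharZero K] {W : WeilCohomology.{u, v, w} k K}

theorem finT_dg (R : CycleMap T W) {ρ : Sv T Y} (h : FinT ρ) : FinT (dg ρ) :=
  h.bil (finT_con R (Submodule.fg_span_singleton _)) _ _

theorem op_gr (R : CycleMap T W) (f : Y.X ⟶ X.X) : R.op (gr T f) = W.push f := by
  ext a
  rw [R.op_apply, gr, T.dl_graph, R.γ_push, map_one, ← (WeilCohomology.IsAlg.one.push _).comm,
    ← W.push_mul_pull, one_mul, ← W.pull_comp, pair_fst, W.pull_id, ← LinearMap.comp_apply,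
    ← W.push_comp, pair_snd]

theorem op_tp_gr (R : CycleMap T W) (f : Y.X ⟶ X.X) :
    R.op (T.tp (gr T f)) = (W.pull f).toLinearMap := by
  have h : T.tp (gr T f) = T.push (pair f (𝟙 Y.X)) 1 := by
    rw [gr, T.dl_graph, ChowTheory.tp, ev, ← T.push_eq_pull _ _ (swap_swap Y X) (swap_swap X Y),
      ← T.push_comp]
    congr 2
    exact prod_ext (by simp) (by simp)
  ext a
  rw [R.op_apply, h, R.γ_push, map_one, ← (WeilCohomology.IsAlg.one.push _).comm,
    ← W.push_mul_pull, one_mul, ← W.pull_comp, pair_fst, ← LinearMap.comp_apply,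
    ← W.push_comp, pair_snd, W.push_id]
  rfl

theorem op_mo (R : CycleMap T W) (r : T.A X) : R.op (mo r) = LinearMap.mulLeft K (R.γ X r) := by
  ext a
  rw [R.op_apply, mo, map_mul (R.γ _), R.γ_pull, ← mul_assoc, W.push_mul_pull, ← R.op_apply, R.op_diag,
    LinearMap.mulLeft_apply, (R.isAlg_γ r).comm, LinearMap.id_apply]

theorem mulLeft_mem_Ops (R : CycleMap T W) {ρ : Sv T X} {σ : Sv T (Y.prod X)}
    (h : Md (sndH Y X) ρ σ) {r : T.A X} (hr : ∀ S, cst T S X r ∈ ρ.c S) {j : ℕ}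
    (hj : r ∈ T.CH X j) : LinearMap.mulLeft K (R.γ X r) ∈ Ops R σ :=
  op_mo R r ▸ op_mem_Ops R (fun S ψ hψ => by
    change act (mo r) ψ ∈ _
    rw [act_mo]
    exact h S _ (hr S) ψ hψ) (mo_mem hj)

theorem exists_inv_sec {O : Subring (Module.End K (W.H X))} {O' : Subring (Module.End K (W.H Z))}
    (f : Z.X ⟶ X.X) (hO : Lef W X O)
    (hf : ∀ P ∈ O, (W.pull f).toLinearMap ∘ₗ P ∘ₗ W.push f ∈ O') {ι : Type} [Fintype ι]
    [DecidableEq ι] (hinv : ∀ u ∈ mat ι O, Function.Injective u → ∃ v ∈ mat ι O, v * u = 1)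
    {l : W.H Z} {i i' : ℕ} (hi : i + i' = 2 * Z.dim)
    (hl : Set.BijOn (fun x => l * x) (W.deg Z i) (W.deg Z i')) (n : ι → W.H Z) (e j : ι → ℕ)
    (hn : ∀ t, W.IsAlg (n t) ∧ n t ∈ W.deg Z (2 * e t) ∧ j t + 2 * e t = i ∧
      LinearMap.mulLeft K (n t) ∈ O')
    (hnn : ∀ s t, LinearMap.mulLeft K (W.push f (n s * l * n t)) ∈ O)
    (hb : Set.BijOn (fun x : ι → W.H X => ∑ t, n t * W.pull f (x t))
      {x | ∀ t, x t ∈ W.deg X (j t)} (W.deg Z i)) :
    ∃ B ∈ O', (∀ x ∈ W.deg Z i, B (l * x) = x) ∧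
      ∀ m, m + i ≠ 2 * Z.dim → ∀ y ∈ W.deg Z m, B y = 0 := by
  obtain ⟨Θ, h1, h2, h3⟩ := hO.theta
  let F : (ι → W.H X) →ₗ[K] W.H Z :=
    ∑ t, LinearMap.mulLeft K (n t) ∘ₗ (W.pull f).toLinearMap ∘ₗ LinearMap.proj t
  have hF : ∀ x, F x = ∑ t, n t * W.pull f (x t) := fun x => LinearMap.sum_apply _ _ _
  let G : W.H Z →ₗ[K] (ι → W.H X) :=
    LinearMap.pi fun t => W.proj X (j t) ∘ₗ Θ ∘ₗ W.push f ∘ₗ LinearMap.mulLeft K (n t)
  have hG : ∀ y t, G y t = W.proj X (j t) (Θ (W.push f (n t * y))) := fun _ _ => rfl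
  let P : Module.End K (ι → W.H X) := LinearMap.pi fun t => W.proj X (j t) ∘ₗ LinearMap.proj t
  have hP : ∀ x t, P x t = W.proj X (j t) (x t) := fun _ _ => rfl
  have hPO : P ∈ mat ι O := fun s t => by
    have : endVecRingEquivMatrixEnd ι K (W.H X) P s t = if s = t then W.proj X (j s) else 0 := by
      ext x
      change W.proj X (j s) ((Pi.single t x : ι → W.H X) s) = _
      rw [Pi.single_apply]
      split_ifs <;> simp
    rw [this]
    split_ifs
    exacts [hO.proj _, zero_mem _]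
  have hu : (G ∘ₗ LinearMap.mulLeft K l ∘ₗ F) ∈ mat ι O := fun s t => by
    have : endVecRingEquivMatrixEnd ι K (W.H X) (G ∘ₗ LinearMap.mulLeft K l ∘ₗ F) s t =
        W.proj X (j s) * Θ * LinearMap.mulLeft K (W.push f (n s * l * n t)) := by
      ext x
      change G (l * F (Pi.single t x)) s = W.proj X (j s) (Θ (W.push f (n s * l * n t) * x))
      rw [hG, hF, Finset.sum_eq_single t, Pi.single_eq_same, ← W.push_mul_pull, mul_assoc,
        mul_assoc]
      · intro s _ hs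
        rw [Pi.single_eq_of_ne hs, map_zero, mul_zero]
      · simp
    exact this ▸ mul_mem (mul_mem (hO.proj _) h1) (hnn s t)
  have hpush : ∀ m, ∀ y ∈ W.deg Z m, ∀ t m', m' + j t + 2 * Z.dim ≠ m + i + 2 * X.dim →
      W.proj X m' (W.push f (n t * y)) = 0 := fun m y hy t m' h =>
    W.push_deg f _ _ (by have := (hn t).2.2.1; omega) _
      (WeilCohomology.mul_mem_deg (hn t).2.1 hy)
  obtain ⟨v, hv, hvu⟩ := hinv ((G ∘ₗ LinearMap.mulLeft K l ∘ₗ F) * P + (1 - P))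
    (add_mem (mul_mem hu hPO) (sub_mem (one_mem _) hPO)) <|
      (injective_iff_map_eq_zero _).2 fun x hx => by
        have h4 : ∀ t, G (l * F (P x)) t + (x t - W.proj X (j t) (x t)) = 0 := congrFun hx
        have h5 : ∀ t, G (l * F (P x)) t = 0 := fun t => by
          have := congrArg (W.proj X (j t)) (h4 t)
          rwa [map_add, map_sub, W.proj_of_mem (W.proj_mem X _ (x t)), sub_self, add_zero, hG,
            W.proj_of_mem (W.proj_mem X _ _), map_zero] at this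
        have h6 : ∀ t, x t ∈ W.deg X (j t) := fun t => by
          have := h4 t
          rw [h5, zero_add, sub_eq_zero] at this
          exact this ▸ W.proj_mem X _ _
        have h7 : P x = x := funext fun t => W.proj_of_mem (h6 t)
        rw [h7] at h5
        have h8 : F x ∈ W.deg Z i := hF x ▸ hb.mapsTo h6
        have h9 : l * F x = 0 := by
          refine W.poincare_deg Z i' i (by omega) _ (hl.mapsTo h8) fun y hy => ?_
          obtain ⟨z, hz, rfl⟩ := hb.surjOn hy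
          rw [Finset.mul_sum, map_sum]
          refine Finset.sum_eq_zero fun t _ => ?_
          rw [← mul_assoc, ← (hn t).1.comm, ← W.tr_push_mul]
          by_cases ht : 2 * X.dim < j t
          · rw [(Submodule.eq_bot_iff _).1 (W.deg_eq_bot X _ ht) _ (hz t), mul_zero, map_zero]
          have h10 : W.push f (n t * (l * F x)) ∈ W.deg X (2 * X.dim - j t) :=
            mem_deg_of_proj fun m hm => hpush i' _ (hl.mapsTo h8) t m (by omega)
          have h11 := h5 t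
          rw [hG, W.proj_of_mem (h3 _ _ (by omega) _ h10)] at h11
          rw [h2 (h11.trans (map_zero Θ).symm), zero_mul, map_zero]
        refine hb.injOn h6 (fun t => zero_mem _) ?_
        have h12 := hl.injOn h8 (zero_mem _) (h9.trans (mul_zero l).symm)
        simpa [hF] using h12
  have hB : F ∘ₗ v ∘ₗ G = ∑ s, ∑ t, LinearMap.mulLeft K (n s) * ((W.pull f).toLinearMap ∘ₗ
      (endVecRingEquivMatrixEnd ι K (W.H X) v s t * W.proj X (j t) * Θ) ∘ₗ W.push f) *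
        LinearMap.mulLeft K (n t) := by
    ext y
    rw [LinearMap.comp_apply, hF, LinearMap.sum_apply]
    refine Finset.sum_congr rfl fun s _ => ?_
    conv_lhs => rw [← (endVecRingEquivMatrixEnd ι K (W.H X)).symm_apply_apply v]
    rw [LinearMap.sum_apply]
    change n s * W.pull f (∑ t, endVecRingEquivMatrixEnd ι K (W.H X) v s t (G y t)) = _
    rw [map_sum, Finset.mul_sum]
    rfl
  refine ⟨F ∘ₗ v ∘ₗ G, hB ▸ sum_mem fun s _ => sum_mem fun t _ => mul_mem (mul_mem (hn s).2.2.2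
    (hf _ (mul_mem (mul_mem (hv s t) (hO.proj _)) h1))) (hn t).2.2.2, fun y hy => ?_,
    fun m hm y hy => ?_⟩
  · obtain ⟨x, hx, rfl⟩ := hb.surjOn hy
    have h7 : P x = x := funext fun t => W.proj_of_mem (hx t)
    have h8 := LinearMap.congr_fun hvu x
    change v (G (l * F (P x)) + (x - P x)) = x at h8
    rw [h7, sub_self, add_zero, hF] at h8
    change F (v (G _)) = _
    rw [h8, hF]
  · have h4 : G y = 0 := funext fun t => by
      rw [hG, ← W.sum_proj X (W.push f _), map_sum, map_sum]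
      refine Finset.sum_eq_zero fun m' hm' => ?_
      have := Finset.mem_range.1 hm'
      by_cases h : m' + j t = 2 * X.dim
      · rw [hpush m y hy t m' (by omega), map_zero, map_zero]
      · exact W.proj_of_mem_ne (h3 m' (2 * X.dim - m') (by omega) _ (W.proj_mem X _ _)) (by omega)
    change F (v (G y)) = 0
    rw [h4, map_zero, map_zero]

theorem Good.sec {R : CycleMap T W} {ρ : Sv T X} (hX : Good R X ρ) (f : Z.X ⟶ X.X)
    {ρ' : Sv T Z} (h1 : FinT ρ') (h2 : IsRg ρ')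
    (h3 : ∀ S, ∀ r ∈ ρ'.c S, T.comp (gr T f) r ∈ ρ.c S) {N : Subalgebra ℚ (T.A Z)}
    (hN : ∀ r ∈ N, ∀ S, cst T S Z r ∈ ρ'.c S) {h : T.A Z} (hh : h ∈ N) (hh1 : h ∈ T.CH Z 1)
    (hL : HardLefschetz (W.deg Z) Z.dim (R.γ Z h))
    (hb : ∀ i < Z.dim, ∃ (m : ℕ) (n : Fin m → T.A Z) (e j : Fin m → ℕ),
      (∀ t, n t ∈ N ∧ n t ∈ T.CH Z (e t) ∧ j t + 2 * e t = i) ∧
      Set.BijOn (fun x : Fin m → W.H X => ∑ t, R.γ Z (n t) * W.pull f (x t))
        {x | ∀ t, x t ∈ W.deg X (j t)} (W.deg Z i)) : Good R Z ρ' := by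
  obtain ⟨σ, hσ, hm, hO⟩ := hX
  let τ : Sv T (Z.prod X) := bil (fstH Z X) (pair (fstH Z X ≫ f) (sndH Z X)) ρ' σ
  have hτ : Md (sndH Z X) ρ τ := by
    have h4 := md_bil_right (p := fstH Z X) (q := pair (fstH Z X ≫ f) (sndH Z X)) ρ' hm
    rwa [pair_snd] at h4
  let σ' : Sv T (Z.prod Z) :=
    (dg ρ').sup (bil (sndH Z Z) (pair (fstH Z Z) (sndH Z Z ≫ f)) ρ' τ)
  have hm' : Md (sndH Z Z) ρ' σ' := (md_bil_self h2.md _ _ _).sup (md_bil_self h2.md _ _ _)
  have h4 : σ'.Le (τ.comap (T.boxc (T.diag Z) (gr T f))) := by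
    refine sup_le (dg_le _ _ fun S r hr => ?_) (bil_le _ fun S a ha b hb => ?_)
    · have h5 := mem_bil (fstH Z X) (pair (fstH Z X ≫ f) (sndH Z X)) hr (hσ.diag S)
      rwa [pb_cst] at h5
    · change act (gr T f) _ ∈ τ.c S
      rw [act_gr, gr_comp_mul, ← act_gr, act_pb_snd]
      exact hτ S _ (h3 S a ha) b hb
  have h5 : ∀ P ∈ Ops R σ, (W.pull f).toLinearMap ∘ₗ P ∘ₗ W.push f ∈ Ops R σ' := fun P hP => by
    refine Ops_ind R (Q := fun P => (W.pull f).toLinearMap ∘ₗ P ∘ₗ W.push f ∈ Ops R σ') ?_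
      (fun a b ha hb => ?_) (fun g hg j hj => ?_) hP
    · rw [LinearMap.zero_comp, LinearMap.comp_zero]
      exact zero_mem _
    · rw [LinearMap.add_comp, LinearMap.comp_add]
      exact add_mem ha hb
    obtain ⟨n, hn⟩ := T.comp_mem' hj (gr_mem f)
    obtain ⟨n', hn'⟩ := T.comp_mem' (β := T.tp (gr T f)) (T.pull_mem _ (gr_mem f)) hn
    rw [← op_gr R, ← op_tp_gr R, ← R.op_comp, ← R.op_comp]
    refine op_mem_Ops R (fun S ψ hψ => ?_) hn'
    change act (T.comp _ _) ψ ∈ _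
    rw [act_comp, act_comp, act_tp_gr, ← one_mul (pb T S _ _), ← map_one (pb T S (sndH Z Z))]
    refine le_sup_right _ _ S _ (mem_bil _ _ (h2.one S)
      (comp_bil (T.boxc (T.diag Z) g) τ (fun S a ha b hb => ?_) (h4 S ψ hψ)))
    change act g _ ∈ τ.c S
    rw [act_fst_mul, act_pb]
    exact mem_bil _ _ ha (hg S b hb)
  refine ⟨σ', ⟨(finT_dg R h1).sup R (h1.bil (h1.bil hσ.fin _ _) _ _),
    fun S => le_sup_left _ _ S _ (diag_mem_dg h2 S)⟩, hm',
    lef_of_inv (R.γ_mem hh1) hL (mulLeft_mem_Ops R hm' (hN h hh) hh1) fun i hi => ?_⟩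
  obtain ⟨m, n, e, j, hn, hb⟩ := hb i hi
  refine exists_inv_sec f hO h5 (fun u => exists_inv_mat R hσ) (by omega) (hL i hi.le)
    (fun t => R.γ Z (n t)) e j (fun t => ⟨R.isAlg_γ _, R.γ_mem (hn t).2.1, (hn t).2.2,
      mulLeft_mem_Ops R hm' (hN _ (hn t).1) (hn t).2.1⟩) (fun s t => ?_) hb
  obtain ⟨l, hl⟩ := push_mem' f (T.mul_mem (T.mul_mem (hn s).2.1 (pow_mem hh1 (Z.dim - i)))
    (hn t).2.1)
  rw [← map_pow, ← map_mul, ← map_mul, ← R.γ_push]
  refine mulLeft_mem_Ops R hm (fun S => ?_) hl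
  rw [← gr_comp_cst]
  exact h3 S _ (hN _ (mul_mem (mul_mem (hn s).1 (Subalgebra.pow_mem _ hh _)) (hn t).1) S)

end Pool.Agent.P.MP_638e8a_ag.K
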