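import Pool.Agent.P.MP_638e8a_ag.K.Sv
import Pool.Agent.P.MP_638e8a_ag.Final

/-!
The stabiliser of a finitely generated sieve consists of algebraic correspondences; the operators
it induces on cohomology are closed under inverses.
-/

open CategoryTheory AlgebraicGeometry MonoidalCategory CartesianMonoidalCategory Order Polynomial

universe u v w

namespace Pool.Agent.P.MP_638e8a_ag.K

open Pool.Agent.P.MP_90138e_ag
open Pool.Agent.P.MP_90138e_ag.WeilCohomology (fstH sndH)
open ChowTheory Sv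

variable {k : Type u} [Field k] {S S' V X X' Y Y' Z : SmProj k} {T : ChowTheory k}

theorem sum_act {ι : Type*} (s : Finset ι) (g : ι → T.A (X.prod X'))
    (ψ : T.A (S.prod (Y.prod X))) : act (∑ i ∈ s, g i) ψ = ∑ i ∈ s, act (g i) ψ := by
  classical
  induction s using Finset.induction_on with
  | empty => simp [zero_act]
  | insert a s ha ih => rw [Finset.sum_insert ha, Finset.sum_insert ha, add_act, ih]

theorem act_sum {ι : Type*} (s : Finset ι) (g : T.A (X.prod X'))
    (ψ : ι → T.A (S.prod (Y.prod X))) : act g (∑ i ∈ s, ψ i) = ∑ i ∈ s, act g (ψ i) :=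
  comp_sum s _ ψ

/-- The correspondences that preserve a sieve. -/
noncomputable def st (σ : Sv T (Y.prod X)) : Subalgebra ℚ (T.End X) where
  carrier := {g | ∀ S, ∀ ψ ∈ σ.c S, act g.val ψ ∈ σ.c S}
  mul_mem' ha hb S ψ h := by
    rw [End.val_mul, act_comp]
    exact ha _ _ (hb _ _ h)
  add_mem' ha hb S ψ h := by
    rw [End.val_add, add_act]
    exact add_mem (ha _ _ h) (hb _ _ h)
  algebraMap_mem' q S ψ h := by
    rw [Algebra.algebraMap_eq_smul_one, val_smul, smul_act, End.val_one, act_diag]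
    exact Submodule.smul_mem _ q h

/-- The span of the homogeneous correspondences that preserve a sieve. -/
noncomputable def stH (σ : Sv T (Y.prod X)) : Subalgebra ℚ (T.End X) :=
  (Submodule.span ℚ {g | g ∈ st σ ∧ ∃ j, g.val ∈ T.CH _ j}).toSubalgebra
    (Submodule.subset_span ⟨one_mem _, _, T.diag_mem X⟩) fun x y hx hy => by
      have h := Submodule.mul_mem_mul hx hy
      rw [Submodule.span_mul_span] at h
      refine Submodule.span_mono ?_ h
      rintro _ ⟨a, ⟨ha, i, hi⟩, b, ⟨hb, j, hj⟩, rfl⟩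
      exact ⟨mul_mem ha hb, T.comp_mem' hi hj⟩

theorem stH_le (σ : Sv T (Y.prod X)) {g : T.End X} (h : g ∈ stH σ) : g ∈ st σ :=
  Submodule.span_le (p := (st σ).toSubmodule) |>.2 (fun _ h => h.1) h

theorem mem_stH {σ : Sv T (Y.prod X)} {g : T.End X} (h : g ∈ st σ) {j : ℕ}
    (hj : g.val ∈ T.CH _ j) : g ∈ stH σ := Submodule.subset_span ⟨h, j, hj⟩

/-- A finitely generated sieve containing the diagonal. -/
structure Pt (σ : Sv T (X.prod X)) : Prop where
  fin : FinT σ
  diag : ∀ S, cst T S _ (T.diag X) ∈ σ.c S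

variable [IsAlgClosed k] {K : Type v} [Field K] [CharZero K] {W : WeilCohomology.{u, v, w} k K}

theorem isAlgebraic_matrix (R : CycleMap T W) {σ : Sv T (X.prod X)} (hσ : Pt σ) {ι : Type}
    [Fintype ι] [DecidableEq ι] (g : Matrix ι ι (T.End X)) (hg : ∀ s t, g s t ∈ st σ) :
    IsAlgebraic ℚ g := by
  obtain ⟨V, hV, φ, hφ, hle⟩ := hσ.fin
  obtain ⟨U, hU, i, r, hri⟩ := exists_copies R hV ι
  choose L hL using fun s t => hle V _ (hg s t V φ hφ)
  obtain ⟨e, he⟩ := hle _ _ (hσ.diag (SmProj.pt k))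
  set M : T.End U := End.mk (∑ s, ∑ t, T.comp (i s) (T.comp (L s t) (r t))) with hM
  have h1 : ∀ s, ∑ t, act (g s t).val (T.comp φ (r t)) = T.comp (T.comp φ (r s)) M.val := by
    intro s
    have h0 : T.comp (r s) M.val = ∑ t, T.comp (L s t) (r t) := by
      change T.comp _ (∑ s, ∑ t, T.comp (i s) (T.comp (L s t) (r t))) = _
      rw [comp_sum, Finset.sum_eq_single s, comp_sum]
      · refine Finset.sum_congr rfl fun t _ => ?_
        rw [← T.comp_assoc (r s), hri, if_pos rfl, T.diag_comp]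
      · intro s' _ hs
        rw [comp_sum]
        refine Finset.sum_eq_zero fun t _ => ?_
        rw [← T.comp_assoc, hri, if_neg hs.symm, T.zero_comp]
      · simp
    rw [T.comp_assoc, h0, comp_sum]
    refine Finset.sum_congr rfl fun t _ => ?_
    rw [act_nat, ← hL, T.comp_assoc]
  have h2 : ∀ (n : ℕ) s, ∑ t, act ((g ^ n) s t).val (T.comp φ (r t)) =
      T.comp (T.comp φ (r s)) (M ^ n).val := by
    intro n
    induction n with
    | zero =>
      intro s
      rw [pow_zero, pow_zero, End.val_one, T.comp_diag, Finset.sum_eq_single s,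
        Matrix.one_apply_eq, End.val_one, act_diag]
      · intro t _ ht
        rw [Matrix.one_apply_ne ht.symm, End.val_zero, zero_act]
      · simp
    | succ n ih =>
      intro s
      simp only [pow_succ' g, Matrix.mul_apply, val_sum, sum_act, End.val_mul, act_comp]
      rw [Finset.sum_comm]
      simp only [← act_sum, ih]
      rw [pow_succ', End.val_mul, ← T.comp_assoc _ M.val, ← h1, sum_comp]
      exact Finset.sum_congr rfl fun t _ => act_nat _ _ _
  have h3 : ∀ (P : ℚ[X]) s, ∑ t, act ((aeval g P) s t).val (T.comp φ (r t)) =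
      T.comp (T.comp φ (r s)) (aeval M P).val := by
    intro P s
    induction P using Polynomial.induction_on' with
    | add p q hp hq =>
      simp only [map_add, Matrix.add_apply, End.val_add, add_act, Finset.sum_add_distrib, hp, hq,
        T.comp_add]
    | monomial n a =>
      simp only [aeval_monomial, ← Algebra.smul_def, Matrix.smul_apply, val_smul, smul_act,
        ← Finset.smul_sum, h2, comp_smul]
  obtain ⟨P, hP, hP'⟩ := hU.isAlgebraic M
  refine ⟨P, hP, Matrix.ext fun s t => cst_injective (T := T) (X.prod X) ?_⟩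
  have h4 := congrArg (fun ψ => T.comp ψ (T.comp (i t) e)) (h3 P s)
  simp only [hP', End.val_zero, T.comp_zero, T.zero_comp, sum_comp, ← act_nat] at h4
  rw [Finset.sum_eq_single t, T.comp_assoc, ← T.comp_assoc (r t), hri, if_pos rfl, T.diag_comp, he,
    act_cst_diag] at h4
  · exact h4.trans (map_zero _).symm
  · intro t' _ ht
    rw [T.comp_assoc, ← T.comp_assoc (r t'), hri, if_neg ht, T.zero_comp, T.comp_zero, act,
      T.comp_zero]
  · simp

theorem isAlgebraic_st (R : CycleMap T W) {σ : Sv T (X.prod X)} (hσ : Pt σ) {g : T.End X}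
    (hg : g ∈ st σ) : IsAlgebraic ℚ g := by
  have h := isAlgebraic_matrix R hσ (Matrix.scalarAlgHom Unit ℚ g) fun s t => by
    simpa using hg
  exact (isAlgebraic_algHom_iff _ (fun a b h => by simpa using h)).1 h

theorem op_smul (R : CycleMap T W) (q : ℚ) (x : T.A (X.prod Y)) :
    R.op (q • x) = (q : K) • R.op x := by
  ext a
  rw [LinearMap.smul_apply, R.op_apply, R.op_apply, R.γ_smul, mul_smul_comm, map_smul]

theorem op_deg (R : CycleMap T W) {x : T.A (X.prod Y)} {j m m' : ℕ} (hx : x ∈ T.CH _ j)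
    (h : m' + 2 * X.dim ≠ m + 2 * j) {a : W.H X} (ha : a ∈ W.deg X m) :
    W.proj Y m' (R.op x a) = 0 := by
  rw [R.op_apply]
  refine W.push_deg (sndH X Y) (m + 2 * j) m' ?_ _
    (WeilCohomology.mul_mem_deg (W.pull_deg (fstH X Y) m a ha) (R.γ_mem hx))
  change m' + 2 * (X.dim + Y.dim) ≠ _
  omega

theorem mem_deg_of_proj {y : W.H Y} {n : ℕ} (h : ∀ m, m ≠ n → W.proj Y m y = 0) :
    y ∈ W.deg Y n := by
  rw [← W.sum_proj Y y]
  refine Submodule.sum_mem _ fun m _ => ?_
  by_cases hm : m = n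
  · exact hm ▸ W.proj_mem Y m y
  · rw [h m hm]
    exact zero_mem _

/-- The operators induced by the homogeneous correspondences that preserve `σ`. -/
noncomputable def Ops (R : CycleMap T W) (σ : Sv T (Y.prod X)) :
    Subring (Module.End K (W.H X)) := (stH σ).toSubring.map (R.ρ X)

theorem op_mem_Ops (R : CycleMap T W) {σ : Sv T (Y.prod X)} {g : T.A (X.prod X)}
    (h : End.mk g ∈ st σ) {j : ℕ} (hj : g ∈ T.CH _ j) : R.op g ∈ Ops R σ :=
  ⟨End.mk g, mem_stH h hj, rfl⟩

theorem Ops_ind (R : CycleMap T W) {σ : Sv T (Y.prod X)} {Q : Module.End K (W.H X) → Prop}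
    (h0 : Q 0) (hadd : ∀ a b, Q a → Q b → Q (a + b))
    (h : ∀ g : T.A (X.prod X), End.mk g ∈ st σ → ∀ j, g ∈ T.CH _ j → Q (R.op g))
    {P : Module.End K (W.H X)} (hP : P ∈ Ops R σ) : Q P := by
  obtain ⟨g, hg, rfl⟩ := hP
  have key : ∀ q : ℚ, Q (R.ρ X (q • g)) := by
    induction hg using Submodule.span_induction with
    | mem x hx =>
      obtain ⟨h1, j, hj⟩ := hx
      exact fun q => h _ (Subalgebra.smul_mem _ h1 q) j (Submodule.smul_mem _ q hj)
    | zero => exact fun q => by rwa [smul_zero, map_zero]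
    | add x y _ _ hx hy => exact fun q => by rw [smul_add, map_add]; exact hadd _ _ (hx q) (hy q)
    | smul c x _ hx => exact fun q => by rw [smul_smul]; exact hx _
  simpa using key 1

theorem exists_deg_zero (R : CycleMap T W) {σ : Sv T (Y.prod X)} {P : Module.End K (W.H X)}
    (hP : P ∈ Ops R σ) (hd : ∀ m, ∀ x ∈ W.deg X m, P x ∈ W.deg X m) :
    ∃ g ∈ st σ, g.val ∈ T.CH _ X.dim ∧ R.ρ X g = P := by
  have key : ∃ g ∈ st σ, g.val ∈ T.CH _ X.dim ∧
      ∀ m, ∀ x ∈ W.deg X m, R.ρ X g x = W.proj X m (P x) := by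
    refine Ops_ind R (Q := fun P => ∃ g ∈ st σ, g.val ∈ T.CH _ X.dim ∧
      ∀ m, ∀ x ∈ W.deg X m, R.ρ X g x = W.proj X m (P x)) ⟨0, zero_mem _, zero_mem _, by simp⟩
      ?_ (fun g hg j hj => ?_) hP
    · rintro a b ⟨g, h1, h2, h3⟩ ⟨g', h1', h2', h3'⟩
      exact ⟨g + g', add_mem h1 h1', add_mem h2 h2', fun m x hx => by
        rw [map_add, LinearMap.add_apply, LinearMap.add_apply, map_add, h3 m x hx, h3' m x hx]⟩
    · by_cases hjd : j = X.dim
      · exact ⟨End.mk g, hg, hjd ▸ hj, fun m x hx => (W.proj_of_mem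
          (mem_deg_of_proj fun m' hm => op_deg R hj (by omega) hx)).symm⟩
      · exact ⟨0, zero_mem _, zero_mem _, fun m x hx => by
          rw [op_deg R hj (by omega) hx, map_zero, LinearMap.zero_apply]⟩
  obtain ⟨g, h1, h2, h3⟩ := key
  exact ⟨g, h1, h2, W.hom_ext fun m x hx => by rw [h3 m x hx, W.proj_of_mem (hd m x hx)]⟩

/-- The operators on `ι → H` whose matrix entries lie in `O`. -/
def mat {H : Type w} [AddCommGroup H] [Module K H] (ι : Type) [Fintype ι] [DecidableEq ι]
    (O : Subring (Module.End K H)) : Subring (Module.End K (ι → H)) where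
  carrier := {u | ∀ s t, endVecRingEquivMatrixEnd ι K H u s t ∈ O}
  mul_mem' ha hb s t := by
    rw [map_mul, Matrix.mul_apply]
    exact sum_mem fun l _ => mul_mem (ha s l) (hb l t)
  one_mem' s t := by
    rw [map_one, Matrix.one_apply]
    split_ifs
    exacts [one_mem _, zero_mem _]
  add_mem' ha hb s t := by
    rw [map_add]
    exact add_mem (ha s t) (hb s t)
  zero_mem' s t := by
    rw [map_zero]
    exact zero_mem _
  neg_mem' ha s t := by
    rw [map_neg]
    exact neg_mem (ha s t)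

theorem exists_inv_mat (R : CycleMap T W) {σ : Sv T (X.prod X)} (hσ : Pt σ) {ι : Type}
    [Fintype ι] [DecidableEq ι] {u : Module.End K (ι → W.H X)} (hu : u ∈ mat ι (Ops R σ))
    (hi : Function.Injective u) : ∃ v ∈ mat ι (Ops R σ), v * u = 1 := by
  choose g hg hg' using hu
  let g' : Matrix ι ι (stH σ) := fun s t => ⟨g s t, hg s t⟩
  let ρ : Matrix ι ι (T.End X) →+* Module.End K (ι → W.H X) :=
    (endVecRingEquivMatrixEnd ι K (W.H X)).symm.toRingHom.comp (R.ρ X).mapMatrix
  have h1 : ρ ((stH σ).val.mapMatrix g') = u :=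
    (RingEquiv.symm_apply_eq _).2 (Matrix.ext fun s t => hg' s t)
  obtain ⟨P, hP⟩ := exists_inv ρ
    (isAlgebraic_matrix R hσ ((stH σ).val.mapMatrix g') fun s t => stH_le σ (hg s t))
    (h1 ▸ (Module.End.isUnit_iff u).2 ⟨hi, LinearMap.injective_iff_surjective.1 hi⟩)
  refine ⟨_, fun s t => ?_, h1 ▸ hP⟩
  rw [aeval_algHom_apply]
  have h2 := (endVecRingEquivMatrixEnd ι K (W.H X)).apply_symm_apply
    ((R.ρ X).mapMatrix ((stH σ).val.mapMatrix (aeval g' P)))
  exact ⟨_, (aeval g' P s t).2, (congrFun (congrFun h2 s) t).symm⟩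

theorem hasCK_of_ops (R : CycleMap T W) {σ : Sv T (X.prod X)} (hσ : Pt σ)
    (h : ∀ i, W.proj X i ∈ Ops R σ) : HasCK R X := by
  obtain ⟨g, h1, h2, h3⟩ := exists_deg_zero R
    (P := ∑ n : Fin (2 * X.dim + 1), (n : ℕ) • W.proj X n)
    (sum_mem fun n _ => nsmul_mem (h n) _) fun m x hx => by
      rw [LinearMap.sum_apply]
      refine Submodule.sum_mem _ fun n _ => nsmul_mem ?_ _
      by_cases hn : m = n
      · exact hn ▸ W.proj_mem X _ x
      · rw [W.proj_of_mem_ne hx hn]
        exact zero_mem _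
  have hc := proj_complete W X
  obtain ⟨p, hp, hp'⟩ := exists_idem (0 : Fin (2 * X.dim + 1)) (R.ρ X) (isAlgebraic_st R hσ h1) _
    hc (fun n => ((n : ℕ) : ℚ)) (fun a b e => Fin.ext (Nat.cast_injective (R := ℚ) e)) fun j => by
      rw [map_sub, h3, map_natCast, map_natCast, sub_mul, Finset.sum_mul,
        Finset.sum_eq_single j (fun n _ hn => by rw [smul_mul_assoc, hc.ortho hn, smul_zero])
          (by simp), smul_mul_assoc, (hc.idem j).eq, nsmul_eq_mul, sub_self]
  have hD : ∀ P : ℚ[X], (aeval g P).val ∈ T.CH (X.prod X) X.dim := fun P => by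
    rw [aeval_eq_sum_range, val_sum]
    exact Submodule.sum_mem _ fun n _ => Submodule.smul_mem _ _ ((degZero T X).pow_mem h2 n)
  refine ⟨fun n => (aeval g (p n)).val, fun n => hD _, fun m n => ?_, hp.complete, fun n =>
    ⟨W.proj X n, hp' n ▸ R.induces_op _, fun i x hx => ?_⟩⟩
  · split_ifs with hmn
    · subst hmn
      exact (hp.idem m).eq
    · exact hp.ortho hmn
  · split_ifs with hi
    · exact W.proj_of_mem (hi ▸ hx)
    · exact W.proj_of_mem_ne hx hi

end Pool.Agent.P.MP_638e8a_ag.K
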