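import Pool.Agent.P.MP_638e8a_ag.K.FD

/-!
Sieves: systems of families of cycle classes that are stable under correspondences of the base.
-/

open CategoryTheory AlgebraicGeometry MonoidalCategory CartesianMonoidalCategory Order

universe u v w

namespace Pool.Agent.P.MP_638e8a_ag.K

open Pool.Agent.P.MP_90138e_ag
open Pool.Agent.P.MP_90138e_ag.WeilCohomology (fstH sndH)
open ChowTheory

variable {k : Type u} [Field k] {S S' V X X' Y Y' Y'' Y₁ Y₂ Z : SmProj k} {T : ChowTheory k}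

/-- A system of families on `Y`, stable under correspondences of the base. -/
structure Sv (T : ChowTheory k) (Y : SmProj k) where
  c : ∀ S : SmProj k, Submodule ℚ (T.A (S.prod Y))
  nat : ∀ {S S' : SmProj k} (γ : T.A (S'.prod S)) {ψ : T.A (S.prod Y)}, ψ ∈ c S →
    T.comp ψ γ ∈ c S'

namespace Sv

/-- Inclusion of sieves. -/
def Le (σ τ : Sv T Y) : Prop := ∀ S, ∀ ψ ∈ σ.c S, ψ ∈ τ.c S

theorem par_mem (σ : Sv T Y) (s : S'.X ⟶ S.X) {ψ : T.A (S.prod Y)} (h : ψ ∈ σ.c S) :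
    par T Y s ψ ∈ σ.c S' := comp_gr s ψ ▸ σ.nat _ h

/-- The sieve generated by a system of families. -/
noncomputable def gen (𝒜 : ∀ S : SmProj k, Set (T.A (S.prod Y))) : Sv T Y where
  c S' := Submodule.span ℚ {x | ∃ (S : SmProj k) (ψ : T.A (S.prod Y)) (γ : T.A (S'.prod S)),
    ψ ∈ 𝒜 S ∧ x = T.comp ψ γ}
  nat γ ψ h := by
    induction h using Submodule.span_induction with
    | mem x hx =>
      obtain ⟨S, ψ, γ', h1, rfl⟩ := hx
      exact Submodule.subset_span ⟨S, ψ, T.comp γ' γ, h1, T.comp_assoc ψ γ' γ⟩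
    | zero => rw [T.zero_comp]; exact zero_mem _
    | add x y _ _ hx hy => rw [T.add_comp]; exact add_mem hx hy
    | smul q x _ hx => rw [smul_comp]; exact Submodule.smul_mem _ q hx

theorem subset_gen {𝒜 : ∀ S : SmProj k, Set (T.A (S.prod Y))} {ψ : T.A (S.prod Y)}
    (h : ψ ∈ 𝒜 S) : ψ ∈ (gen 𝒜).c S :=
  Submodule.subset_span ⟨S, ψ, T.diag S, h, (T.comp_diag ψ).symm⟩

theorem gen_le {𝒜 : ∀ S : SmProj k, Set (T.A (S.prod Y))} (σ : Sv T Y)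
    (h : ∀ S, ∀ ψ ∈ 𝒜 S, ψ ∈ σ.c S) : (gen 𝒜).Le σ := fun S ψ hψ => by
  refine Submodule.span_le.2 ?_ hψ
  rintro _ ⟨S', ψ, γ, h1, rfl⟩
  exact σ.nat γ (h _ _ h1)

/-- The inverse image of a sieve under a correspondence. -/
noncomputable def comap (u : T.A (Y.prod Y')) (σ : Sv T Y') : Sv T Y where
  c S :=
    { carrier := {ψ | T.comp u ψ ∈ σ.c S}
      add_mem' := fun ha hb => by
        rw [Set.mem_ofPred_eq, T.comp_add]
        exact add_mem ha hb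
      zero_mem' := by
        rw [Set.mem_ofPred_eq, T.comp_zero]
        exact zero_mem _
      smul_mem' := fun q x hx => by
        rw [Set.mem_ofPred_eq, comp_smul]
        exact Submodule.smul_mem _ q hx }
  nat γ ψ h := by
    change T.comp u (T.comp ψ γ) ∈ σ.c _
    rw [← T.comp_assoc]
    exact σ.nat γ h

/-- The families whose products with the members of `ρ` lie in `σ`. -/
noncomputable def colon (p : Y''.X ⟶ Y.X) (q : Y''.X ⟶ Y'.X) (ρ : Sv T Y) (σ : Sv T Y'') :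
    Sv T Y' where
  c S :=
    { carrier := {ψ | ∀ (S' : SmProj k) (s : S'.X ⟶ S.X), ∀ r ∈ ρ.c S',
        pb T S' p r * pb T S' q (par T Y' s ψ) ∈ σ.c S'}
      add_mem' := fun ha hb S' s r hr => by
        rw [map_add, map_add, mul_add]
        exact add_mem (ha S' s r hr) (hb S' s r hr)
      zero_mem' := fun S' s r hr => by
        rw [map_zero, map_zero, mul_zero]
        exact zero_mem _
      smul_mem' := fun c x hx S' s r hr => by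
        rw [map_smul, map_smul, mul_smul_comm]
        exact Submodule.smul_mem _ _ (hx S' s r hr) }
  nat γ ψ h S' s r hr := by
    rw [← comp_gr, T.comp_assoc, ← T.comp_diag r, comp_mul]
    exact σ.nat _ (h _ _ _ (ρ.par_mem _ hr))

theorem pb_cst_mo (x : T.A Y) (ψ : T.A (S.prod Y)) : T.comp (mo x) ψ = cst T S Y x * ψ := by
  rw [comp_eq, mo, ev_mul, ev_diag, ev_pull, pair_snd, T.dl_symm, mul_left_comm, T.int_dl_mul,
    map_mul, T.pull_ev, pull_pull, mul_comm, cst]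
  simp only [pair_fst_assoc, pair_snd, Category.id_comp, T.ev_fst_snd]

theorem par_par (s : S'.X ⟶ S.X) (t : V.X ⟶ S'.X) (ψ : T.A (S.prod Y)) :
    par T Y t (par T Y s ψ) = par T Y (t ≫ s) ψ := by
  rw [par_eq t, ev_par, par_eq, Category.assoc]

theorem par_id (ψ : T.A (S.prod Y)) : par T Y (𝟙 S.X) ψ = ψ := by
  rw [par_eq, Category.comp_id, T.ev_fst_snd]

theorem mul_gen {𝒜 : ∀ S : SmProj k, Set (T.A (S.prod Y'))} (p : Y''.X ⟶ Y.X)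
    (q : Y''.X ⟶ Y'.X) (ρ : Sv T Y) (σ : Sv T Y'')
    (hp : ∀ (S S' : SmProj k) (s : S'.X ⟶ S.X), ∀ a ∈ 𝒜 S, par T Y' s a ∈ 𝒜 S')
    (h : ∀ S, ∀ r ∈ ρ.c S, ∀ a ∈ 𝒜 S, pb T S p r * pb T S q a ∈ σ.c S) {r : T.A (S.prod Y)}
    (hr : r ∈ ρ.c S) {ψ : T.A (S.prod Y')} (hψ : ψ ∈ (gen 𝒜).c S) :
    pb T S p r * pb T S q ψ ∈ σ.c S := by
  have h1 := gen_le (colon p q ρ σ) (fun S a ha S' s r hr => h _ _ hr _ (hp _ _ s a ha)) S ψ hψ
    S (𝟙 _) r hr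
  rwa [par_id] at h1

/-- The sieve generated by the products of the pull-backs. -/
noncomputable def bil (p : Y''.X ⟶ Y.X) (q : Y''.X ⟶ Y'.X) (ρ : Sv T Y) (τ : Sv T Y') :
    Sv T Y'' :=
  gen fun S => {x | ∃ a ∈ ρ.c S, ∃ b ∈ τ.c S, x = pb T S p a * pb T S q b}

theorem mem_bil (p : Y''.X ⟶ Y.X) (q : Y''.X ⟶ Y'.X) {ρ : Sv T Y} {τ : Sv T Y'}
    {a : T.A (S.prod Y)} {b : T.A (S.prod Y')} (ha : a ∈ ρ.c S) (hb : b ∈ τ.c S) :
    pb T S p a * pb T S q b ∈ (bil p q ρ τ).c S := subset_gen ⟨a, ha, b, hb, rfl⟩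

theorem bil_le {p : Y''.X ⟶ Y.X} {q : Y''.X ⟶ Y'.X} {ρ : Sv T Y} {τ : Sv T Y'} (σ : Sv T Y'')
    (h : ∀ S, ∀ a ∈ ρ.c S, ∀ b ∈ τ.c S, pb T S p a * pb T S q b ∈ σ.c S) :
    (bil p q ρ τ).Le σ :=
  gen_le σ (by rintro S _ ⟨a, ha, b, hb, rfl⟩; exact h S a ha b hb)

theorem comp_bil {p : Y''.X ⟶ Y.X} {q : Y''.X ⟶ Y'.X} {ρ : Sv T Y} {τ : Sv T Y'}
    (u : T.A (Y''.prod Z)) (σ : Sv T Z)
    (h : ∀ S, ∀ a ∈ ρ.c S, ∀ b ∈ τ.c S, T.comp u (pb T S p a * pb T S q b) ∈ σ.c S)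
    {ψ : T.A (S.prod Y'')} (hψ : ψ ∈ (bil p q ρ τ).c S) : T.comp u ψ ∈ σ.c S :=
  bil_le (σ.comap u) h S ψ hψ

theorem mul_bil {p₁ : Y'.X ⟶ Y₁.X} {p₂ : Y'.X ⟶ Y₂.X} {ρ₁ : Sv T Y₁} {ρ₂ : Sv T Y₂}
    (p : Y''.X ⟶ Y.X) (q : Y''.X ⟶ Y'.X) (ρ : Sv T Y) (σ : Sv T Y'')
    (h : ∀ S, ∀ r ∈ ρ.c S, ∀ a ∈ ρ₁.c S, ∀ b ∈ ρ₂.c S,
      pb T S p r * (pb T S (q ≫ p₁) a * pb T S (q ≫ p₂) b) ∈ σ.c S) {r : T.A (S.prod Y)}
    (hr : r ∈ ρ.c S) {ψ : T.A (S.prod Y')} (hψ : ψ ∈ (bil p₁ p₂ ρ₁ ρ₂).c S) :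
    pb T S p r * pb T S q ψ ∈ σ.c S := by
  refine mul_gen p q ρ σ ?_ ?_ hr hψ
  · rintro S S' s _ ⟨a, ha, b, hb, rfl⟩
    exact ⟨_, ρ₁.par_mem s ha, _, ρ₂.par_mem s hb, by rw [map_mul, par_pb, par_pb]⟩
  · rintro S r hr _ ⟨a, ha, b, hb, rfl⟩
    rw [map_mul, pb_pb, pb_pb]
    exact h S r hr a ha b hb

/-- `σ` is stable under multiplication by the pull-backs of the members of `ρ`. -/
def Md (p : Y'.X ⟶ Y.X) (ρ : Sv T Y) (σ : Sv T Y') : Prop :=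
  ∀ S, ∀ r ∈ ρ.c S, ∀ ψ ∈ σ.c S, pb T S p r * ψ ∈ σ.c S

theorem Md.mono {p : Y'.X ⟶ Y.X} {ρ ρ' : Sv T Y} {σ : Sv T Y'} (h : Md p ρ σ) (h' : ρ'.Le ρ) :
    Md p ρ' σ := fun S r hr => h S r (h' S r hr)

theorem md_bil_left {p : Y''.X ⟶ Y.X} {q : Y''.X ⟶ Y'.X} {p' : Y.X ⟶ Z.X} {ρ : Sv T Z}
    {κ : Sv T Y} (τ : Sv T Y') (h : Md p' ρ κ) : Md (p ≫ p') ρ (bil p q κ τ) :=
  fun S r hr ψ hψ => by
    rw [← pb_id ψ]
    refine mul_bil _ _ ρ _ (fun S r hr a ha b hb => ?_) hr hψ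
    rw [Category.id_comp, Category.id_comp, ← pb_pb, ← mul_assoc, ← map_mul]
    exact mem_bil p q (h S r hr a ha) hb

theorem md_bil_right {p : Y''.X ⟶ Y.X} {q : Y''.X ⟶ Y'.X} {p' : Y'.X ⟶ Z.X} {ρ : Sv T Z}
    (κ : Sv T Y) {τ : Sv T Y'} (h : Md p' ρ τ) : Md (q ≫ p') ρ (bil p q κ τ) :=
  fun S r hr ψ hψ => by
    rw [← pb_id ψ]
    refine mul_bil _ _ ρ _ (fun S r hr a ha b hb => ?_) hr hψ
    rw [Category.id_comp, Category.id_comp, ← pb_pb, mul_left_comm, ← map_mul]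
    exact mem_bil p q ha (h S r hr b hb)

theorem md_of_bil {p₁ : Y'.X ⟶ Y₁.X} {p₂ : Y'.X ⟶ Y₂.X} {ρ₁ : Sv T Y₁} {ρ₂ : Sv T Y₂}
    {q : Y''.X ⟶ Y'.X} {σ : Sv T Y''} (h₁ : Md (q ≫ p₁) ρ₁ σ) (h₂ : Md (q ≫ p₂) ρ₂ σ) :
    Md q (bil p₁ p₂ ρ₁ ρ₂) σ := fun S r hr ψ hψ => by
  rw [mul_comm, ← pb_id ψ]
  refine mul_bil _ _ σ σ (fun S ψ hψ a ha b hb => ?_) hψ hr
  rw [pb_id, mul_comm, mul_assoc]
  exact h₁ S a ha _ (h₂ S b hb ψ hψ)

/-- A sieve of rings. -/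
structure IsRg (ρ : Sv T Y) : Prop where
  one : ∀ S, 1 ∈ ρ.c S
  md : Md (𝟙 Y.X) ρ ρ

theorem IsRg.mul {ρ : Sv T Y} (h : IsRg ρ) {a b : T.A (S.prod Y)} (ha : a ∈ ρ.c S)
    (hb : b ∈ ρ.c S) : a * b ∈ ρ.c S := pb_id a ▸ h.md S a ha b hb

theorem IsRg.bil {ρ : Sv T Y} {τ : Sv T Y'} (h : IsRg ρ) (h' : IsRg τ) (p : Y''.X ⟶ Y.X)
    (q : Y''.X ⟶ Y'.X) : IsRg (bil p q ρ τ) where
  one S := by simpa only [map_one, mul_one] using mem_bil p q (h.one S) (h'.one S)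
  md := md_of_bil
    (by simpa only [Category.id_comp, Category.comp_id] using md_bil_left (p := p) (q := q) τ h.md)
    (by simpa only [Category.id_comp, Category.comp_id] using
      md_bil_right (p := p) (q := q) ρ h'.md)

/-- The sum of two sieves. -/
noncomputable def sup (σ τ : Sv T Y) : Sv T Y where
  c S := σ.c S ⊔ τ.c S
  nat γ ψ h := by
    obtain ⟨a, ha, b, hb, rfl⟩ := Submodule.mem_sup.1 h
    rw [T.add_comp]
    exact Submodule.add_mem_sup (σ.nat γ ha) (τ.nat γ hb)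

theorem le_sup_left (σ τ : Sv T Y) : σ.Le (σ.sup τ) := fun _ _ h => Submodule.mem_sup_left h

theorem le_sup_right (σ τ : Sv T Y) : τ.Le (σ.sup τ) := fun _ _ h => Submodule.mem_sup_right h

theorem sup_le {σ τ υ : Sv T Y} (h : σ.Le υ) (h' : τ.Le υ) : (σ.sup τ).Le υ := fun S _ hψ =>
  _root_.sup_le (a := σ.c S) (b := τ.c S) (c := υ.c S) (h S) (h' S) hψ

theorem Md.sup {p : Y'.X ⟶ Y.X} {ρ : Sv T Y} {σ τ : Sv T Y'} (h : Md p ρ σ) (h' : Md p ρ τ) :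
    Md p ρ (σ.sup τ) := fun S r hr ψ hψ => by
  obtain ⟨a, ha, b, hb, rfl⟩ := Submodule.mem_sup.1 hψ
  rw [mul_add]
  exact Submodule.add_mem_sup (h S r hr a ha) (h' S r hr b hb)

/-- All families. -/
noncomputable def top (T : ChowTheory k) (Y : SmProj k) : Sv T Y where
  c _ := ⊤
  nat _ _ _ := trivial

theorem isRg_top : IsRg (top T Y) := ⟨fun _ => trivial, fun _ _ _ _ _ => trivial⟩

/-- The sieve generated by one family. -/
noncomputable def prin (φ : T.A (V.prod Y)) : Sv T Y where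
  c S :=
    { carrier := {ψ | ∃ γ : T.A (S.prod V), T.comp φ γ = ψ}
      add_mem' := by
        rintro _ _ ⟨a, rfl⟩ ⟨b, rfl⟩
        exact ⟨a + b, T.comp_add φ a b⟩
      zero_mem' := ⟨0, T.comp_zero φ⟩
      smul_mem' := by
        rintro q _ ⟨a, rfl⟩
        exact ⟨q • a, comp_smul q φ a⟩ }
  nat γ := by
    rintro _ ⟨δ, rfl⟩
    exact ⟨T.comp δ γ, (T.comp_assoc φ δ γ).symm⟩

theorem mem_prin (φ : T.A (V.prod Y)) : φ ∈ (prin φ).c V := ⟨T.diag V, T.comp_diag φ⟩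

theorem prin_le {φ : T.A (V.prod Y)} {σ : Sv T Y} (h : φ ∈ σ.c V) : (prin φ).Le σ := by
  rintro S _ ⟨γ, rfl⟩
  exact σ.nat γ h

/-- The sieve generated by the constant families with values in `N`. -/
noncomputable def con (N : Submodule ℚ (T.A Y)) : Sv T Y := gen fun S => cst T S Y '' N

theorem mem_con {N : Submodule ℚ (T.A Y)} {x : T.A Y} (h : x ∈ N) (S : SmProj k) :
    cst T S Y x ∈ (con N).c S := subset_gen ⟨x, h, rfl⟩

theorem con_le {N : Submodule ℚ (T.A Y)} (σ : Sv T Y) (h : ∀ S, ∀ x ∈ N, cst T S Y x ∈ σ.c S) :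
    (con N).Le σ := gen_le σ (by rintro S _ ⟨x, hx, rfl⟩; exact h S x hx)

theorem mul_con {N : Submodule ℚ (T.A Y')} (p : Y''.X ⟶ Y.X) (q : Y''.X ⟶ Y'.X) (ρ : Sv T Y)
    (σ : Sv T Y'')
    (h : ∀ S, ∀ r ∈ ρ.c S, ∀ x ∈ N, pb T S p r * cst T S Y'' (T.pull q x) ∈ σ.c S)
    {r : T.A (S.prod Y)} (hr : r ∈ ρ.c S) {ψ : T.A (S.prod Y')} (hψ : ψ ∈ (con N).c S) :
    pb T S p r * pb T S q ψ ∈ σ.c S := by
  refine mul_gen p q ρ σ ?_ ?_ hr hψ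
  · rintro S S' s _ ⟨x, hx, rfl⟩
    exact ⟨x, hx, (par_cst s x).symm⟩
  · rintro S r hr _ ⟨x, hx, rfl⟩
    rw [pb_cst]
    exact h S r hr x hx

theorem isRg_con (N : Subalgebra ℚ (T.A Y)) : IsRg (con N.toSubmodule) where
  one S := by simpa only [map_one] using mem_con (N := N.toSubmodule) N.one_mem S
  md S r hr ψ hψ := by
    rw [← pb_id ψ]
    refine mul_con _ _ _ _ (fun S r hr x hx => ?_) hr hψ
    rw [T.pull_id, pb_id, mul_comm, ← pb_cst_mo]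
    refine con_le ((con N.toSubmodule).comap (mo x)) (fun S y hy => ?_) S r hr
    change T.comp (mo x) (cst T S Y y) ∈ (con N.toSubmodule).c S
    rw [pb_cst_mo, ← map_mul]
    exact mem_con (N.mul_mem hx hy) S

/-- Generated by one family over a finite-dimensional variety. -/
def FinT (σ : Sv T Y) : Prop :=
  ∃ V, FD T V ∧ ∃ φ ∈ σ.c V, σ.Le (prin φ)

theorem finT_prin (h : FD T V) (φ : T.A (V.prod Y)) : FinT (prin φ) :=
  ⟨V, h, φ, mem_prin φ, fun _ _ h => h⟩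

theorem FinT.congr {σ τ : Sv T Y} (h : FinT σ) (h₁ : σ.Le τ) (h₂ : τ.Le σ) : FinT τ := by
  obtain ⟨V, hV, φ, hφ, h⟩ := h
  exact ⟨V, hV, φ, h₁ _ _ hφ, fun S ψ hψ => h S ψ (h₂ S ψ hψ)⟩

theorem finT_top (h : FD T Y) : FinT (top T Y) :=
  ⟨Y, h, T.diag Y, trivial, fun _ ψ _ => ⟨ψ, T.diag_comp ψ⟩⟩

theorem FinT.bil {ρ : Sv T Y} {τ : Sv T Y'} (h : FinT ρ) (h' : FinT τ) (p : Y''.X ⟶ Y.X)
    (q : Y''.X ⟶ Y'.X) : FinT (bil p q ρ τ) := by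
  obtain ⟨V, hV, φ, hφ, h⟩ := h
  obtain ⟨V', hV', φ', hφ', h'⟩ := h'
  refine ⟨V.prod V', hV.prod hV', _, mem_bil p q (ρ.par_mem (fstH V V') hφ)
    (τ.par_mem (sndH V V') hφ'), bil_le _ fun S a ha b hb => ?_⟩
  obtain ⟨γ, rfl⟩ := h S a ha
  obtain ⟨γ', rfl⟩ := h' S b hb
  exact ⟨_, (comp_mul p q φ φ' γ γ').symm⟩

variable [IsAlgClosed k] {K : Type v} [Field K] [CharZero K] {W : WeilCohomology.{u, v, w} k K}

theorem FinT.sup (R : CycleMap T W) {σ τ : Sv T Y} (h : FinT σ) (h' : FinT τ) :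
    FinT (σ.sup τ) := by
  obtain ⟨V, hV, φ, hφ, h⟩ := h
  obtain ⟨V', hV', φ', hφ', h'⟩ := h'
  obtain ⟨U, hU, i, r, i', r', e1, e2, e3, e4⟩ := exists_merge R hV hV'
  refine ⟨U, hU, T.comp φ r + T.comp φ' r', Submodule.add_mem_sup (σ.nat r hφ) (τ.nat r' hφ'),
    sup_le (fun S ψ hψ => prin_le (σ := prin _) ⟨i, ?_⟩ S ψ (h S ψ hψ))
      fun S ψ hψ => prin_le (σ := prin _) ⟨i', ?_⟩ S ψ (h' S ψ hψ)⟩
  · rw [T.add_comp, T.comp_assoc, T.comp_assoc, e1, e4, T.comp_diag, T.comp_zero,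
      add_zero]
  · rw [T.add_comp, T.comp_assoc, T.comp_assoc, e2, e3, T.comp_diag, T.comp_zero,
      zero_add]

theorem finT_con (R : CycleMap T W) {N : Submodule ℚ (T.A Y)} (hN : N.FG) : FinT (con N) := by
  refine Submodule.fg_induction (motive := fun N _ => FinT (con N)) (fun x => ?_)
    (fun M M' _ _ h h' => ?_) N hN
  · refine (finT_prin fd_pt (cst T _ Y x)).congr
      (prin_le (mem_con (Submodule.mem_span_singleton_self x) _)) (con_le _ fun S y hy => ?_)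
    obtain ⟨q, rfl⟩ := Submodule.mem_span_singleton.1 hy
    rw [map_smul, ← par_cst (toPt S)]
    exact Submodule.smul_mem _ _ ((prin _).par_mem _ (mem_prin _))
  · refine (h.sup R h').congr (sup_le (con_le _ fun S x hx => mem_con (Submodule.mem_sup_left hx) S)
      (con_le _ fun S x hx => mem_con (Submodule.mem_sup_right hx) S)) (con_le _ fun S x hx => ?_)
    obtain ⟨a, ha, b, hb, rfl⟩ := Submodule.mem_sup.1 hx
    rw [map_add]
    exact Submodule.add_mem_sup (mem_con ha S) (mem_con hb S)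

theorem exists_finT_ge (R : CycleMap T W) {ι : Type} [Finite ι] (σ : ι → Sv T Y)
    (h : ∀ i, FinT (σ i)) : ∃ τ : Sv T Y, FinT τ ∧ ∀ i, (σ i).Le τ := by
  classical
  have := Fintype.ofFinite ι
  have key : ∀ s : Finset ι, ∃ τ : Sv T Y, FinT τ ∧ ∀ i ∈ s, (σ i).Le τ := fun s => by
    induction s using Finset.induction_on with
    | empty => exact ⟨_, finT_prin fd_pt 0, by simp⟩
    | insert a s _ ih =>
      obtain ⟨τ, h1, h2⟩ := ih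
      refine ⟨(σ a).sup τ, (h a).sup R h1, fun i hi => ?_⟩
      rcases Finset.mem_insert.1 hi with rfl | hi
      · exact le_sup_left _ _
      · exact fun S ψ hψ => le_sup_right _ _ S ψ (h2 i hi S ψ hψ)
  obtain ⟨τ, h1, h2⟩ := key Finset.univ
  exact ⟨τ, h1, fun i => h2 i (Finset.mem_univ i)⟩

end Sv

end Pool.Agent.P.MP_638e8a_ag.K
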